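import Pool.Agent.Lib.MP_4a15bf_mp.Harm
import Pool.Agent.Lib.MP_4a15bf_mp.h5.Limit

section
set_option autoImplicit false

namespace Pool.Agent.HeatSphere

open MeasureTheory Metric Set MvPolynomial
open scoped ENNReal Manifold ContDiff Laplacian Pointwise InnerProductSpace

/-- A monomial in four variables. -/
noncomputable def mon (a b c d : ℕ) : MP 3 := X 0 ^ a * X 1 ^ b * X 2 ^ c * X 3 ^ d

lemma mon_homog (a b c d : ℕ) : (mon a b c d).IsHomogeneous (a + b + c + d) := by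
  unfold mon
  exact (((isHomogeneous_X_pow 0 a).mul (isHomogeneous_X_pow 1 b)).mul
    (isHomogeneous_X_pow 2 c)).mul (isHomogeneous_X_pow 3 d)

lemma Phi_congr {p q : MP 3} (h : ∀ x : Sph 3, ev p x = ev q x) : Phi p = Phi q := by
  rw [Phi_apply, Phi_apply]
  congr 1
  ext x
  exact h x

lemma sph_coord (x : Sph 3) : (x : Amb 3) 3 ^ 2 =
    1 - (x : Amb 3) 0 ^ 2 - (x : Amb 3) 1 ^ 2 - (x : Amb 3) 2 ^ 2 := by
  have h : ‖(x : Amb 3)‖ = 1 := mem_sphere_zero_iff_norm.1 x.2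
  have h2 := sq_norm_eq (x : Amb 3)
  rw [h, Fin.sum_univ_four] at h2
  linarith

/-- The special monomials. -/
noncomputable def smon (k : ℕ) (ij : Fin (k + 1) × Fin (k + 1)) : L2S 3 :=
  if (ij.1 : ℕ) + ij.2 ≤ k then Phi (mon ij.1 ij.2 (k - ij.1 - ij.2) 0)
  else Phi (mon (k - ij.1) (k - ij.2) (ij.1 + ij.2 - k - 1) 1)

lemma Phi_mon_mem (k : ℕ) : ∀ d a b c : ℕ, a + b + c + d = k →
    Phi (mon a b c d) ∈ VV 3 k ⊔ Submodule.span ℝ (Set.range (smon k)) := by
  intro d
  induction d using Nat.strong_induction_on with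
  | _ d ih =>
    intro a b c h
    rcases d with _ | _ | d
    · apply Submodule.mem_sup_right
      apply Submodule.subset_span
      refine ⟨(⟨a, by omega⟩, ⟨b, by omega⟩), ?_⟩
      unfold smon
      simp only
      rw [if_pos (by omega)]
      congr 2
      omega
    · apply Submodule.mem_sup_right
      apply Submodule.subset_span
      refine ⟨(⟨k - a, by omega⟩, ⟨k - b, by omega⟩), ?_⟩
      unfold smon
      simp only
      rw [if_neg (by omega)]
      congr 2 <;> omega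
    · have e : Phi (mon a b c (d + 1 + 1)) = Phi (mon a b c d) - Phi (mon (a + 2) b c d)
          - Phi (mon a (b + 2) c d) - Phi (mon a b (c + 2) d) := by
        rw [← map_sub, ← map_sub, ← map_sub]
        apply Phi_congr
        intro x
        have hx := sph_coord x
        simp only [mon, ev, map_pow, eval_X, map_mul, map_sub]
        rw [pow_succ ((x : Amb 3) 3) (d + 1), pow_succ ((x : Amb 3) 3) d, mul_assoc ((x : Amb 3) 3 ^ d),
          ← sq, hx]
        ring
      rw [e]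
      have h0 : Phi (mon a b c d) ∈ VV 3 k ⊔ Submodule.span ℝ (Set.range (smon k)) := by
        apply Submodule.mem_sup_left
        exact Submodule.mem_map_of_mem (homog_le_DD (by omega) (mon_homog a b c d))
      exact Submodule.sub_mem _ (Submodule.sub_mem _ (Submodule.sub_mem _ h0
        (ih d (by omega) _ _ _ (by omega))) (ih d (by omega) _ _ _ (by omega)))
        (ih d (by omega) _ _ _ (by omega))

lemma monomial_eq_mon (m : Fin (3 + 1) →₀ ℕ) (r : ℝ) :
    (monomial m r : MP 3) = r • mon (m 0) (m 1) (m 2) (m 3) := by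
  rw [MvPolynomial.monomial_eq, Finsupp.prod_fintype _ _ (by simp), MvPolynomial.smul_eq_C_mul]
  unfold mon
  congr 1
  exact Fin.prod_univ_four _

lemma Phi_homog_mem (k : ℕ) {p : MP 3} (hp : p ∈ homogeneousSubmodule (Fin (3 + 1)) ℝ k) :
    Phi p ∈ VV 3 k ⊔ Submodule.span ℝ (Set.range (smon k)) := by
  rw [MvPolynomial.as_sum p, map_sum]
  refine Submodule.sum_mem _ fun m hm => ?_
  rw [monomial_eq_mon, map_smul]
  apply Submodule.smul_mem
  apply Phi_mon_mem
  have hp' : p.IsHomogeneous k := hp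
  have h1 : m.degree = k := by
    by_contra hne
    exact (MvPolynomial.mem_support_iff.1 hm) (hp'.coeff_eq_zero hne)
  rw [Finsupp.degree_eq_sum] at h1
  rw [← h1]
  exact (Fin.sum_univ_four (fun i => m i)).symm

lemma VV_succ_le (k : ℕ) : VV 3 (k + 1) ≤ VV 3 k ⊔ Submodule.span ℝ (Set.range (smon k)) := by
  rintro _ ⟨p, hp, rfl⟩
  rw [DD_succ] at hp
  obtain ⟨a, ha, b, hb, rfl⟩ := Submodule.mem_sup.1 hp
  rw [map_add]
  exact Submodule.add_mem _ (Phi_homog_mem k ha)
    (Submodule.mem_sup_left (Submodule.mem_map_of_mem hb))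

theorem finrank_HH_le (k : ℕ) : Module.finrank ℝ (HH 3 k) ≤ (k + 1) ^ 2 := by
  let P : L2S 3 →ₗ[ℝ] L2S 3 := ((VV 3 k)ᗮ.starProjection : L2S 3 →L[ℝ] L2S 3).toLinearMap
  have h1 : HH 3 k ≤ (Submodule.span ℝ (Set.range (smon k))).map P := by
    intro h hh
    obtain ⟨v, hv, s, hs, hvs⟩ := Submodule.mem_sup.1 (VV_succ_le k hh.2)
    refine ⟨s, hs, ?_⟩
    have e1 : P h = h := Submodule.starProjection_eq_self_iff.2 hh.1
    have e2 : P v = 0 := by
      show (VV 3 k)ᗮ.starProjection v = 0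
      rw [Submodule.starProjection_apply_eq_zero_iff, Submodule.orthogonal_orthogonal]
      exact hv
    rw [← hvs, map_add, e2, zero_add] at e1
    rw [e1, hvs]
  have hfin : Module.Finite ℝ (Submodule.span ℝ (Set.range (smon k))) :=
    Module.Finite.iff_fg.2 (Submodule.fg_span (Set.finite_range _))
  have hfin2 : Module.Finite ℝ ((Submodule.span ℝ (Set.range (smon k))).map P) :=
    inferInstance
  calc Module.finrank ℝ (HH 3 k) ≤ Module.finrank ℝ ((Submodule.span ℝ (Set.range (smon k))).map P) :=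
        Submodule.finrank_mono h1
    _ ≤ Module.finrank ℝ (Submodule.span ℝ (Set.range (smon k))) := Submodule.finrank_map_le _ _
    _ ≤ Fintype.card (Fin (k + 1) × Fin (k + 1)) := finrank_range_le_card _
    _ = (k + 1) ^ 2 := by simp [sq]

end Pool.Agent.HeatSphere
end

section
set_option autoImplicit false

namespace Pool.Agent.HeatSphere

open MeasureTheory Metric Set
open scoped ENNReal Manifold ContDiff Laplacian Pointwise InnerProductSpace

variable {n : ℕ}

/-- Multiplication by a continuous function. -/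
noncomputable def Mul (f : C(Sph n, ℝ)) : L2S n →L[ℝ] L2S n :=
  (ContinuousLinearMap.mul ℝ ℝ).holderL (area n) ∞ 2 2 (ContinuousMap.toLp ∞ (area n) ℝ f)

lemma coeFn_Mul (f : C(Sph n, ℝ)) (u : L2S n) :
    (Mul f u : Sph n → ℝ) =ᵐ[area n] fun x => f x * u x := by
  have h1 := ContinuousLinearMap.coeFn_holder (r := 2) (ContinuousLinearMap.mul ℝ ℝ)
    (ContinuousMap.toLp ∞ (area n) ℝ f) u
  have h2 := ContinuousMap.coeFn_toLp (p := ∞) (𝕜 := ℝ) (area n) f
  filter_upwards [h1, h2] with x hx hx2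
  have : (Mul f u : Sph n → ℝ) x = ((ContinuousLinearMap.mul ℝ ℝ).holder 2
    (ContinuousMap.toLp ∞ (area n) ℝ f) u : Sph n → ℝ) x := rfl
  rw [this, hx, hx2]
  simp

lemma L2_ext {u v : L2S n} (h : (u : Sph n → ℝ) =ᵐ[area n] v) : u = v := Lp.ext h

lemma Mul_Mul (f g : C(Sph n, ℝ)) (u : L2S n) : Mul f (Mul g u) = Mul (f * g) u := by
  apply L2_ext
  filter_upwards [coeFn_Mul f (Mul g u), coeFn_Mul g u, coeFn_Mul (f * g) u] with x h1 h2 h3
  rw [h1, h2, h3]; simp [mul_assoc]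

lemma Mul_one (u : L2S n) : Mul (1 : C(Sph n, ℝ)) u = u := by
  apply L2_ext
  filter_upwards [coeFn_Mul 1 u] with x h1
  rw [h1]; simp

lemma inner_Mul (f : C(Sph n, ℝ)) (u v : L2S n) : ⟪Mul f u, v⟫_ℝ = ⟪u, Mul f v⟫_ℝ := by
  rw [inner_L2, inner_L2]
  refine integral_congr_ae ?_
  filter_upwards [coeFn_Mul f u, coeFn_Mul f v] with x h1 h2
  rw [h1, h2]; ring

lemma Mul_toL2 (f g : C(Sph n, ℝ)) : Mul f (toL2 g) = toL2 (f * g) := by
  apply L2_ext
  filter_upwards [coeFn_Mul f (toL2 g), coeFn_toL2 g, coeFn_toL2 (f * g)] with x h1 h2 h3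
  rw [h1, h2, h3]; simp

lemma Mul_const (c : ℝ) (u : L2S n) : Mul (ContinuousMap.const _ c) u = c • u := by
  apply L2_ext
  filter_upwards [coeFn_Mul (ContinuousMap.const _ c) u, Lp.coeFn_smul c u] with x h1 h2
  rw [h1, h2]; simp

end Pool.Agent.HeatSphere
end

section
set_option autoImplicit false

namespace Pool.Agent.HeatSphere

open MeasureTheory Metric Set
open scoped ENNReal Manifold ContDiff Laplacian Pointwise InnerProductSpace

/-- Eigenvalues of the conformal Laplacian on `S³`. -/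
noncomputable def lamk (k : ℕ) : ℝ := mu 3 k + 3 / 4

lemma lamk_eq (k : ℕ) : lamk k = ((k : ℝ) + 1) ^ 2 - 1 / 4 := by
  unfold lamk mu; push_cast; ring

lemma lamk_ge (k : ℕ) : 3 / 4 * ((k : ℝ) + 1) ^ 2 ≤ lamk k := by
  rw [lamk_eq]
  have : (0 : ℝ) ≤ k := Nat.cast_nonneg k
  nlinarith

lemma lamk_pos (k : ℕ) : 0 < lamk k := by
  have := lamk_ge k
  have h : (0 : ℝ) < ((k : ℝ) + 1) ^ 2 := by positivity
  linarith

lemma ext_HH {x y : L2S 3} (h : ∀ k, ∀ v ∈ HH 3 k, ⟪x, v⟫_ℝ = ⟪y, v⟫_ℝ) : x = y := by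
  have h1 : x - y ∈ (⨆ k, HH 3 k)ᗮ := by
    rw [← Submodule.iInf_orthogonal, Submodule.mem_iInf]
    intro k
    rw [Submodule.mem_orthogonal']
    intro v hv
    rw [inner_sub_left, h k v hv, sub_self]
  have h2 : (⨆ k, HH 3 k)ᗮ = ⊥ := by
    rw [← Submodule.topologicalClosure_eq_top_iff]
    exact iSup_HH_dense
  rw [h2, Submodule.mem_bot] at h1
  exact sub_eq_zero.1 h1

/-- The terms of the Green operator. -/
noncomputable def GT (k : ℕ) : L2S 3 →L[ℝ] L2S 3 := (lamk k)⁻¹ • (HH 3 k).starProjection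

lemma summable_GT : Summable GT := by
  have h1 : Summable (fun k : ℕ => (4 / 3 : ℝ) * (1 / ((k + 1 : ℕ) : ℝ) ^ 2)) := by
    apply Summable.mul_left
    exact (summable_nat_add_iff 1).2 (Real.summable_one_div_nat_pow.2 one_lt_two)
  refine Summable.of_norm_bounded h1 fun k => ?_
  unfold GT
  rw [norm_smul, norm_inv, Real.norm_of_nonneg (lamk_pos k).le]
  have h2 : ‖(HH 3 k).starProjection‖ ≤ 1 := Submodule.starProjection_norm_le _
  have h3 : (lamk k)⁻¹ ≤ 4 / 3 * (1 / ((k + 1 : ℕ) : ℝ) ^ 2) := by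
    have h4 := lamk_ge k
    have h5 : (0 : ℝ) < 3 / 4 * ((k : ℝ) + 1) ^ 2 := by positivity
    calc (lamk k)⁻¹ ≤ (3 / 4 * ((k : ℝ) + 1) ^ 2)⁻¹ := inv_anti₀ h5 h4
      _ = 4 / 3 * (1 / ((k + 1 : ℕ) : ℝ) ^ 2) := by
        push_cast; rw [mul_inv]; norm_num
  calc (lamk k)⁻¹ * ‖(HH 3 k).starProjection‖ ≤ (lamk k)⁻¹ * 1 :=
        mul_le_mul_of_nonneg_left h2 (inv_nonneg.2 (lamk_pos k).le)
    _ ≤ _ := by rw [mul_one]; exact h3

/-- The inverse of the conformal Laplacian. -/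
noncomputable def GG : L2S 3 →L[ℝ] L2S 3 := ∑' k, GT k

lemma hasSum_GG (x : L2S 3) : HasSum (fun k => GT k x) (GG x) := by
  have h := summable_GT.hasSum
  exact h.mapL (ContinuousLinearMap.apply ℝ (L2S 3) x)

lemma compact_GT (k : ℕ) : IsCompactOperator (GT k) := by
  unfold GT
  have h1 : IsCompactOperator ((HH 3 k).starProjection) := by
    have : LocallyCompactSpace (HH 3 k) := by
      have : ProperSpace (HH 3 k) := FiniteDimensional.proper_real _
      infer_instance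
    have h2 : IsCompactOperator ((HH 3 k).orthogonalProjectionOnto) :=
      isCompactOperator_of_locallyCompactSpace_dom _
    exact h2.clm_comp (HH 3 k).subtypeL
  exact h1.smul ((lamk k)⁻¹)

lemma compact_GG : IsCompactOperator GG := by
  have h1 := summable_GT.hasSum
  refine isCompactOperator_of_tendsto (𝕜₁ := ℝ) (𝕜₂ := ℝ) h1 ?_
  refine Filter.Eventually.of_forall fun s => ?_
  classical
  induction s using Finset.induction_on with
  | empty => simpa using isCompactOperator_zero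
  | insert a s ha ih =>
    rw [Finset.sum_insert ha]
    exact (compact_GT a).add ih

lemma inner_GG (x y : L2S 3) : ⟪GG x, y⟫_ℝ = ⟪x, GG y⟫_ℝ := by
  have h1 : HasSum (fun k => ⟪y, GT k x⟫_ℝ) ⟪y, GG x⟫_ℝ :=
    (innerSL ℝ y).hasSum (hasSum_GG x)
  have h2 : HasSum (fun k => ⟪x, GT k y⟫_ℝ) ⟪x, GG y⟫_ℝ :=
    (innerSL ℝ x).hasSum (hasSum_GG y)
  rw [real_inner_comm]
  refine h1.unique ?_
  convert h2 using 2 with k
  unfold GT
  rw [smul_apply, smul_apply, inner_smul_right, inner_smul_right]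
  congr 1
  rw [real_inner_comm, Submodule.inner_starProjection_left_eq_right]

lemma inner_GG_HH (x : L2S 3) {k : ℕ} {h : L2S 3} (hh : h ∈ HH 3 k) :
    ⟪GG x, h⟫_ℝ = (lamk k)⁻¹ * ⟪x, h⟫_ℝ := by
  rw [inner_GG]
  have h1 : GG h = (lamk k)⁻¹ • h := by
    refine (hasSum_GG h).unique ?_
    have h2 : (fun j => GT j h) = fun j => if j = k then (lamk k)⁻¹ • h else 0 := by
      funext j
      unfold GT
      rw [smul_apply]
      split_ifs with hj
      · rw [hj, Submodule.starProjection_eq_self_iff.2 hh]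
      · have : h ∈ (HH 3 j)ᗮ := by
          rw [Submodule.mem_orthogonal]
          intro u hu
          exact HH_orthogonal hj hu hh
        rw [(Submodule.starProjection_apply_eq_zero_iff _).2 this, smul_zero]
    rw [h2]
    exact hasSum_ite_eq k _
  rw [h1, inner_smul_right]

end Pool.Agent.HeatSphere
end

section
set_option autoImplicit false

namespace Pool.Agent.HeatSphere

open MeasureTheory Metric Set
open scoped ENNReal Manifold ContDiff Laplacian Pointwise InnerProductSpace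

variable {n : ℕ}

lemma isSmooth_iff {u : Sph n → ℝ} : IsSmooth u ↔ Sm (radExt u) := by
  constructor
  · exact sm_radExt
  · intro h
    have h2 := isSmooth_restrict h
    simp_rw [radExt_coe] at h2
    exact h2

lemma IsSmooth.mul {u v : Sph n → ℝ} (hu : IsSmooth u) (hv : IsSmooth v) :
    IsSmooth (fun x => u x * v x) := by
  have h := isSmooth_restrict ((sm_radExt hu).mul (sm_radExt hv))
  simp_rw [radExt_coe] at h
  exact h

lemma IsSmooth.rpow {W : Sph n → ℝ} (hW : IsSmooth W) (hpos : ∀ x, 0 < W x) (a : ℝ) :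
    IsSmooth (fun x => W x ^ a) := by
  have h1 : Sm (fun y => radExt W y ^ a) := by
    refine ContDiffOn.rpow_const_of_ne (sm_radExt hW) fun y hy => ?_
    rw [radExt_of_ne hy]
    exact (hpos _).ne'
  have h := isSmooth_restrict h1
  simp_rw [radExt_coe] at h
  exact h

lemma isSmooth_const (c : ℝ) : IsSmooth (fun _ : Sph n => c) :=
  isSmooth_restrict (U := fun _ => c) contDiffOn_const

lemma IsSmooth.lapB {u : Sph n → ℝ} (hu : IsSmooth u) : Continuous (lapB u) := by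
  have h : HeatSphere.lapB u = fun x : Sph n => (1 / 2) * ∑ i, ∑ j, LL i j (LL i j (radExt u)) x := by
    funext x; exact lapB_eq_sum hu x
  rw [h]
  refine continuous_const.mul (continuous_finsetSum _ fun i _ => continuous_finsetSum _ fun j _ => ?_)
  exact (((sm_radExt hu).LL i j).LL i j).continuous_sph

lemma IsSmooth.confLap {u : Sph n → ℝ} (hu : IsSmooth u) : Continuous (confLap u) := by
  unfold HeatSphere.confLap
  exact (hu.lapB.neg).add (continuous_const.mul hu.continuous)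

lemma confLap3 (u : Sph 3 → ℝ) (x : Sph 3) : confLap u x = -lapB u x + 3 / 4 * u x := by
  unfold confLap; norm_num

lemma integral_confLap_comm {u v : Sph n → ℝ} (hu : IsSmooth u) (hv : IsSmooth v) :
    ∫ x, u x * confLap v x ∂(area n) = ∫ x, confLap u x * v x ∂(area n) := by
  unfold confLap
  have e1 : ∀ x, u x * (-lapB v x + (n / 2 : ℝ) * ((n / 2 : ℝ) - 1) * v x) =
      (n / 2 : ℝ) * ((n / 2 : ℝ) - 1) * (u x * v x) - u x * lapB v x := fun x => by ring
  have e2 : ∀ x, (-lapB u x + (n / 2 : ℝ) * ((n / 2 : ℝ) - 1) * u x) * v x =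
      (n / 2 : ℝ) * ((n / 2 : ℝ) - 1) * (u x * v x) - lapB u x * v x := fun x => by ring
  simp_rw [e1, e2]
  rw [integral_sub, integral_sub, integral_lapB_comm hu hv]
  · exact (integral_continuous_bound (hu.continuous.mul hv.continuous)).const_mul _
  · exact integral_continuous_bound (hu.lapB.mul hv.continuous)
  · exact (integral_continuous_bound (hu.continuous.mul hv.continuous)).const_mul _
  · exact integral_continuous_bound (hu.continuous.mul hv.lapB)

lemma HH_conf (k : ℕ) {h : L2S 3} (hh : h ∈ HH 3 k) :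
    ∃ p : MP 3, Phi p = h ∧ ∀ x : Sph 3, confLap (fun x : Sph 3 => ev p x) x = lamk k * ev p x := by
  obtain ⟨p, hp, he⟩ := HH_eigen k hh
  refine ⟨p, hp, fun x => ?_⟩
  rw [confLap3, lapB_ev, he]
  unfold lamk
  ring

lemma isSmooth_ev (p : MP n) : IsSmooth (fun x : Sph n => ev p x) := isSmooth_restrict (sm_ev p)

/-- `G Y ψ = ψ` for smooth `ψ`. -/
theorem GG_confLap {ψ : Sph 3 → ℝ} (hψ : IsSmooth ψ) :
    GG (toL2 ⟨confLap ψ, hψ.confLap⟩) = toL2 ⟨ψ, hψ.continuous⟩ := by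
  apply ext_HH
  intro k h hh
  rw [inner_GG_HH _ hh]
  obtain ⟨p, hp, he⟩ := HH_conf k hh
  rw [← hp, Phi_apply, inner_toL2, inner_toL2]
  have h1 := integral_confLap_comm hψ (isSmooth_ev p)
  simp_rw [he] at h1
  have h2 : ∫ x, confLap ψ x * ev p x ∂(area 3) = lamk k * ∫ x, ψ x * ev p x ∂(area 3) := by
    rw [← h1, ← integral_const_mul]
    refine integral_congr_ae (Filter.Eventually.of_forall fun x => ?_)
    simp only
    ring
  show (lamk k)⁻¹ * ∫ x, confLap ψ x * ev p x ∂(area 3) = ∫ x, ψ x * ev p x ∂(area 3)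
  rw [h2, ← mul_assoc, inv_mul_cancel₀ (lamk_pos k).ne', one_mul]

section W

variable {W : Sph 3 → ℝ} (hW : IsSmooth W) (hpos : ∀ x, 0 < W x)

/-- Powers of the weight as continuous functions. -/
noncomputable def pw (a : ℝ) : C(Sph 3, ℝ) := ⟨fun x => W x ^ a, (hW.rpow hpos a).continuous⟩

lemma pw_apply (a : ℝ) (x : Sph 3) : pw hW hpos a x = W x ^ a := rfl

lemma pw_mul (a b : ℝ) : pw hW hpos a * pw hW hpos b = pw hW hpos (a + b) := by
  ext x
  simp only [ContinuousMap.mul_apply, pw_apply]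
  rw [Real.rpow_add (hpos x)]

lemma pw_zero : pw hW hpos 0 = 1 := by
  ext x; simp [pw_apply]

/-- The inverse of `Y_W`. -/
noncomputable def KW : L2S 3 →L[ℝ] L2S 3 :=
  (Mul (pw hW hpos (1 / 2))) ∘L GG ∘L (Mul (pw hW hpos (1 / 2)))

lemma KW_apply (u : L2S 3) :
    KW hW hpos u = Mul (pw hW hpos (1 / 2)) (GG (Mul (pw hW hpos (1 / 2)) u)) := rfl

lemma compact_KW : IsCompactOperator (KW hW hpos) := by
  have h1 : IsCompactOperator (GG ∘ (Mul (pw hW hpos (1 / 2)))) :=
    compact_GG.comp_clm (Mul (pw hW hpos (1 / 2)))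
  exact h1.clm_comp (Mul (pw hW hpos (1 / 2)))

lemma inner_KW (u v : L2S 3) : ⟪KW hW hpos u, v⟫_ℝ = ⟪u, KW hW hpos v⟫_ℝ := by
  rw [KW_apply, KW_apply, inner_Mul, inner_GG, inner_Mul]

lemma isEigen_of_eq {lam : ℝ} {u : L2S 3} (h : u = lam • KW hW hpos u) : IsEigen W lam u := by
  intro φ hφ
  have hψ : IsSmooth (fun x => W x ^ (-(1 / 2) : ℝ) * φ x) := (hW.rpow hpos _).mul hφ
  have hYc : Continuous (YW W φ) := by
    unfold YW
    exact (hW.rpow hpos _).continuous.mul hψ.confLap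
  have e1 : toL2 ⟨YW W φ, hYc⟩ = Mul (pw hW hpos (-(1 / 2))) (toL2 ⟨_, hψ.confLap⟩) := by
    rw [Mul_toL2]; rfl
  have e2 : toL2 ⟨φ, hφ.continuous⟩ = Mul (pw hW hpos (1 / 2)) (toL2 ⟨_, hψ.continuous⟩) := by
    rw [Mul_toL2]
    congr 1
    ext x
    show φ x = W x ^ (1 / 2 : ℝ) * (W x ^ (-(1 / 2) : ℝ) * φ x)
    rw [← mul_assoc, ← Real.rpow_add (hpos x)]
    simp
  have h1 : ∫ x, u x * YW W φ x ∂(area 3) = ⟪u, toL2 ⟨YW W φ, hYc⟩⟫_ℝ :=
    (inner_L2_toL2 u ⟨YW W φ, hYc⟩).symm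
  have h2 : ∫ x, u x * φ x ∂(area 3) = ⟪u, toL2 ⟨φ, hφ.continuous⟩⟫_ℝ :=
    (inner_L2_toL2 u ⟨φ, hφ.continuous⟩).symm
  rw [h1, h2, e1, e2]
  conv_lhs => rw [h]
  rw [inner_smul_left, KW_apply, inner_Mul, Mul_Mul, pw_mul]
  have h3 : (1 / 2 + -(1 / 2) : ℝ) = 0 := by norm_num
  rw [h3, pw_zero, Mul_one, inner_GG, GG_confLap hψ, inner_Mul]
  rfl

lemma eq_of_isEigen {lam : ℝ} {u : L2S 3} (h : IsEigen W lam u) : u = lam • KW hW hpos u := by
  have h1 : Mul (pw hW hpos (-(1 / 2))) u = lam • GG (Mul (pw hW hpos (1 / 2)) u) := by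
    apply ext_HH
    intro k v hv
    rw [inner_smul_left, inner_GG_HH _ hv]
    obtain ⟨p, hp, he⟩ := HH_conf k hv
    have hφ : IsSmooth (fun x : Sph 3 => W x ^ (1 / 2 : ℝ) * ev p x) :=
      (hW.rpow hpos _).mul (isSmooth_ev p)
    have h2 := h _ hφ
    have e1 : ∀ x, YW W (fun x : Sph 3 => W x ^ (1 / 2 : ℝ) * ev p x) x =
        lamk k * (W x ^ (-(1 / 2) : ℝ) * ev p x) := by
      intro x
      unfold YW
      have e2 : (fun y : Sph 3 => W y ^ (-(1 / 2) : ℝ) * (W y ^ (1 / 2 : ℝ) * ev p y)) =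
          fun y : Sph 3 => ev p y := by
        funext y
        rw [← mul_assoc, ← Real.rpow_add (hpos y)]
        simp
      rw [e2, he]
      ring
    simp_rw [e1] at h2
    have e3 : ⟪Mul (pw hW hpos (-(1 / 2))) u, v⟫_ℝ =
        ∫ x, u x * (W x ^ (-(1 / 2) : ℝ) * ev p x) ∂(area 3) := by
      rw [← hp, Phi_apply, inner_Mul, Mul_toL2, inner_L2_toL2]
      rfl
    have e4 : ⟪Mul (pw hW hpos (1 / 2)) u, v⟫_ℝ =
        ∫ x, u x * (W x ^ (1 / 2 : ℝ) * ev p x) ∂(area 3) := by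
      rw [← hp, Phi_apply, inner_Mul, Mul_toL2, inner_L2_toL2]
      rfl
    rw [e3, e4]
    have e5 : ∫ x, u x * (lamk k * (W x ^ (-(1 / 2) : ℝ) * ev p x)) ∂(area 3) =
        lamk k * ∫ x, u x * (W x ^ (-(1 / 2) : ℝ) * ev p x) ∂(area 3) := by
      rw [← integral_const_mul]
      refine integral_congr_ae (Filter.Eventually.of_forall fun x => ?_)
      simp only
      ring
    rw [e5] at h2
    have hk := (lamk_pos k).ne'
    simp only [conj_trivial]
    rw [mul_left_comm, ← h2, inv_mul_cancel_left₀ hk]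
  have h2 := congrArg (Mul (pw hW hpos (1 / 2))) h1
  rw [Mul_Mul, pw_mul, map_smul] at h2
  have h3 : (1 / 2 + -(1 / 2) : ℝ) = 0 := by norm_num
  rw [h3, pw_zero, Mul_one] at h2
  exact h2

end W

end Pool.Agent.HeatSphere
end

section
set_option autoImplicit false

namespace Pool.Agent.HeatSphere

open MeasureTheory Metric Set Module
open scoped ENNReal Manifold ContDiff Laplacian Pointwise InnerProductSpace

lemma GG_HH {k : ℕ} {h : L2S 3} (hh : h ∈ HH 3 k) : GG h = (lamk k)⁻¹ • h := by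
  apply ext_HH
  intro j v hv
  rw [inner_GG_HH _ hv, inner_smul_left]
  rcases eq_or_ne j k with rfl | hjk
  · rfl
  · rw [real_inner_comm, HH_orthogonal hjk hv hh]; simp

lemma GG_injective {x : L2S 3} (h : GG x = 0) : x = 0 := by
  apply ext_HH
  intro k v hv
  have h1 := inner_GG_HH x hv
  rw [h, inner_zero_left] at h1
  rw [inner_zero_left]
  rcases mul_eq_zero.1 h1.symm with h2 | h2
  · exact absurd h2 (inv_ne_zero (lamk_pos k).ne')
  · exact h2

/-- A compact injective symmetric operator has a Hilbert basis of eigenvectors. -/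
theorem exists_eigenbasis {H : Type*} [NormedAddCommGroup H] [InnerProductSpace ℝ H]
    [CompleteSpace H] (T : H →L[ℝ] H) (hc : IsCompactOperator T)
    (hs : ∀ u v, ⟪T u, v⟫_ℝ = ⟪u, T v⟫_ℝ) (hinj : ∀ u, T u = 0 → u = 0) :
    ∃ (ι : Type) (b : HilbertBasis ι ℝ H) (c : ι → ℝ), ∀ i, c i ≠ 0 ∧ T (b i) = c i • b i := by
  have hs : (T : H →ₗ[ℝ] H).IsSymmetric := fun u v => hs u v
  have hfin : ∀ μ : ℝ, FiniteDimensional ℝ (End.eigenspace (T : H →ₗ[ℝ] H) μ) := by
    intro μ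
    by_cases hμ : μ = 0
    · have : End.eigenspace (T : H →ₗ[ℝ] H) μ = ⊥ := by
        rw [eq_bot_iff]
        intro u hu
        rw [End.mem_eigenspace_iff, hμ, zero_smul] at hu
        exact (Submodule.mem_bot ℝ).2 (hinj u hu)
      rw [this]
      infer_instance
    · exact ContinuousLinearMap.finite_dimensional_eigenspace hc μ hμ
  let v : (Σ μ : ℝ, Fin (finrank ℝ (End.eigenspace (T : H →ₗ[ℝ] H) μ))) → H :=
    fun a => ((stdOrthonormalBasis ℝ (End.eigenspace (T : H →ₗ[ℝ] H) a.1) a.2 :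
      End.eigenspace (T : H →ₗ[ℝ] H) a.1) : H)
  have hv : Orthonormal ℝ v :=
    hs.orthogonalFamily_eigenspaces.orthonormal_sigma_orthonormal
      (fun μ => (stdOrthonormalBasis ℝ (End.eigenspace (T : H →ₗ[ℝ] H) μ)).orthonormal)
  have hle : ∀ μ : ℝ, End.eigenspace (T : H →ₗ[ℝ] H) μ ≤
      Submodule.span ℝ (Set.range v) := by
    intro μ u hu
    have h1 := (stdOrthonormalBasis ℝ (End.eigenspace (T : H →ₗ[ℝ] H) μ)).sum_repr ⟨u, hu⟩
    have h2 := congrArg (fun x : End.eigenspace (T : H →ₗ[ℝ] H) μ => (x : H)) h1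
    simp only [Submodule.coe_sum, Submodule.coe_smul] at h2
    rw [← h2]
    refine Submodule.sum_mem _ fun i _ => Submodule.smul_mem _ _ (Submodule.subset_span ?_)
    exact ⟨⟨μ, i⟩, rfl⟩
  have hbot : (Submodule.span ℝ (Set.range v))ᗮ = ⊥ := by
    rw [eq_bot_iff, ← ContinuousLinearMap.orthogonalComplement_iSup_eigenspaces_eq_bot hc hs]
    exact Submodule.orthogonal_le (iSup_le hle)
  refine ⟨_, HilbertBasis.mkOfOrthogonalEqBot hv hbot, fun a => a.1, fun a => ?_⟩
  have e1 : (HilbertBasis.mkOfOrthogonalEqBot hv hbot) a = v a := by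
    rw [HilbertBasis.coe_mkOfOrthogonalEqBot]
  rw [e1]
  have h3 : T (v a) = a.1 • v a := by
    have := (stdOrthonormalBasis ℝ (End.eigenspace (T : H →ₗ[ℝ] H) a.1) a.2).2
    exact End.mem_eigenspace_iff.1 this
  have h4 : a.1 ≠ 0 := by
    intro h0
    rw [h0, zero_smul] at h3
    have h5 := hinj _ h3
    have h6 := hv.1 a
    rw [h5, norm_zero] at h6
    exact zero_ne_one h6
  exact ⟨h4, h3⟩

section W

variable {W : Sph 3 → ℝ} (hW : IsSmooth W) (hpos : ∀ x, 0 < W x)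

lemma Mul_pw_injective (a : ℝ) {u : L2S 3} (h : Mul (pw hW hpos a) u = 0) : u = 0 := by
  have h1 := congrArg (Mul (pw hW hpos (-a))) h
  rw [Mul_Mul, pw_mul, map_zero, neg_add_cancel, pw_zero, Mul_one] at h1
  exact h1

lemma KW_injective {u : L2S 3} (h : KW hW hpos u = 0) : u = 0 := by
  rw [KW_apply] at h
  exact Mul_pw_injective hW hpos _ (GG_injective (Mul_pw_injective hW hpos _ h))

include hW hpos in
lemma inner_eq_zero_of_isEigen {lam mu : ℝ} {u v : L2S 3} (hu : IsEigen W lam u)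
    (hv : IsEigen W mu v) (hne : lam ≠ mu) : ⟪u, v⟫_ℝ = 0 := by
  have h1 : ⟪u, v⟫_ℝ = lam * ⟪u, KW hW hpos v⟫_ℝ := by
    conv_lhs => rw [eq_of_isEigen hW hpos hu]
    rw [inner_smul_left, inner_KW]; rfl
  have h2 : ⟪u, v⟫_ℝ = mu * ⟪u, KW hW hpos v⟫_ℝ := by
    conv_lhs => rw [eq_of_isEigen hW hpos hv]
    rw [inner_smul_right]
  have h3 : (lam - mu) * ⟪u, KW hW hpos v⟫_ℝ = 0 := by rw [sub_mul, ← h1, ← h2, sub_self]
  rcases mul_eq_zero.1 h3 with h4 | h4
  · exact absurd (sub_eq_zero.1 h4) hne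
  · rw [h1, h4, mul_zero]

include hW hpos in
/-- The heat trace as the sum over a Hilbert basis of eigenfunctions. -/
theorem heatTrace_eq {ι : Type} (b : HilbertBasis ι ℝ (L2S 3)) (lam : ι → ℝ)
    (hb : ∀ i, IsEigen W (lam i) (b i)) (t : ℝ) :
    heatTrace W t = ∑' i, ENNReal.ofReal (Real.exp (-t * lam i)) := by
  apply le_antisymm
  · unfold heatTrace
    refine iSup_le fun m => iSup_le fun lam' => iSup_le fun u => iSup_le fun hu =>
      iSup_le fun he => ?_
    have h1 : ∀ j, ENNReal.ofReal (Real.exp (-t * lam' j)) =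
        ∑' i, ENNReal.ofReal (⟪b i, u j⟫_ℝ ^ 2) * ENNReal.ofReal (Real.exp (-t * lam i)) := by
      intro j
      have h2 : ∀ i, ENNReal.ofReal (⟪b i, u j⟫_ℝ ^ 2) * ENNReal.ofReal (Real.exp (-t * lam i)) =
          ENNReal.ofReal (⟪b i, u j⟫_ℝ ^ 2) * ENNReal.ofReal (Real.exp (-t * lam' j)) := by
        intro i
        by_cases hi : lam i = lam' j
        · rw [hi]
        · rw [inner_eq_zero_of_isEigen hW hpos (hb i) (he j) hi]; simp
      simp_rw [h2]
      rw [ENNReal.tsum_mul_right]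
      have h3 := b.hasSum_inner_mul_inner (u j) (u j)
      have h4 : (fun i => ⟪u j, b i⟫_ℝ * ⟪b i, u j⟫_ℝ) = fun i => ⟪b i, u j⟫_ℝ ^ 2 := by
        funext i; rw [real_inner_comm, sq]
      rw [h4, real_inner_self_eq_norm_sq, hu.1 j] at h3
      rw [← ENNReal.ofReal_tsum_of_nonneg (fun i => sq_nonneg _) h3.summable, h3.tsum_eq]
      simp
    simp_rw [h1]
    rw [← Summable.tsum_finsetSum (fun i _ => ENNReal.summable)]
    refine ENNReal.tsum_le_tsum fun i => ?_
    rw [← Finset.sum_mul, ← ENNReal.ofReal_sum_of_nonneg (fun j _ => sq_nonneg _)]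
    have h5 := hu.sum_inner_products_le (b i) (s := Finset.univ)
    have h6 : ∑ j, ⟪b i, u j⟫_ℝ ^ 2 ≤ 1 := by
      rw [b.orthonormal.1 i] at h5
      refine le_trans (Finset.sum_le_sum fun j _ => ?_) (h5.trans (by norm_num))
      rw [real_inner_comm, Real.norm_eq_abs, sq_abs]
    calc ENNReal.ofReal (∑ j, ⟪b i, u j⟫_ℝ ^ 2) * ENNReal.ofReal (Real.exp (-t * lam i))
        ≤ 1 * ENNReal.ofReal (Real.exp (-t * lam i)) := by
          gcongr
          rw [ENNReal.ofReal_le_one]; exact h6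
      _ = _ := one_mul _
  · rw [ENNReal.tsum_eq_iSup_sum]
    refine iSup_le fun s => ?_
    unfold heatTrace
    refine le_iSup_of_le s.card (le_iSup_of_le (fun j => lam (s.equivFin.symm j)) ?_)
    refine le_iSup_of_le (fun j => b (s.equivFin.symm j)) ?_
    refine le_iSup_of_le ?_ (le_iSup_of_le (fun i => hb _) ?_)
    · exact b.orthonormal.comp _
        (Subtype.val_injective.comp s.equivFin.symm.injective)
    · rw [← Finset.sum_coe_sort s]
      rw [← s.equivFin.symm.sum_comp (fun i : s => ENNReal.ofReal (Real.exp (-t * lam i)))]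

include hW hpos in
/-- Existence of a Hilbert basis of eigenfunctions. -/
theorem exists_basis : ∃ (ι : Type) (b : HilbertBasis ι ℝ (L2S 3)) (lam : ι → ℝ),
    ∀ i, IsEigen W (lam i) (b i) := by
  obtain ⟨ι, b, c, hbc⟩ := exists_eigenbasis (KW hW hpos) (compact_KW hW hpos)
    (inner_KW hW hpos) (fun u => KW_injective hW hpos)
  refine ⟨ι, b, fun i => (c i)⁻¹, fun i => isEigen_of_eq hW hpos ?_⟩
  rw [(hbc i).2, smul_smul, inv_mul_cancel₀ (hbc i).1, one_smul]

end W

end Pool.Agent.HeatSphere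
end

section
set_option autoImplicit false

namespace Pool.Agent.HeatSphere

open MeasureTheory Metric Set Module
open scoped ENNReal Manifold ContDiff Laplacian Pointwise InnerProductSpace

/-! ### The constant weight -/

lemma isEigen_one {k : ℕ} {h : L2S 3} (hh : h ∈ HH 3 k) :
    IsEigen (fun _ : Sph 3 => (1 : ℝ)) (lamk k) h := by
  have hW : IsSmooth (fun _ : Sph 3 => (1 : ℝ)) := isSmooth_const 1
  have hpos : ∀ x : Sph 3, (0 : ℝ) < (fun _ : Sph 3 => (1 : ℝ)) x := fun _ => one_pos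
  apply isEigen_of_eq hW hpos
  have h1 : pw hW hpos (1 / 2) = 1 := by ext x; simp [pw_apply]
  rw [KW_apply, h1, Mul_one, Mul_one, GG_HH hh, smul_smul, mul_inv_cancel₀ (lamk_pos k).ne',
    one_smul]

/-- A Hilbert basis adapted to an orthogonal family. -/
theorem exists_adapted_basis {H : Type*} [NormedAddCommGroup H] [InnerProductSpace ℝ H]
    [CompleteSpace H] (V : ℕ → Submodule ℝ H) [∀ k, FiniteDimensional ℝ (V k)]
    (hfam : OrthogonalFamily ℝ (fun k => V k) fun k => (V k).subtypeₗᵢ)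
    (hd : (⨆ k, V k)ᗮ = ⊥) :
    ∃ b : HilbertBasis (Σ k : ℕ, Fin (finrank ℝ (V k))) ℝ H, ∀ a, b a ∈ V a.1 := by
  let v : (Σ k : ℕ, Fin (finrank ℝ (V k))) → H :=
    fun a => ((stdOrthonormalBasis ℝ (V a.1) a.2 : V a.1) : H)
  have hv : Orthonormal ℝ v :=
    hfam.orthonormal_sigma_orthonormal (fun k => (stdOrthonormalBasis ℝ (V k)).orthonormal)
  have hle : ∀ k, V k ≤ Submodule.span ℝ (Set.range v) := by
    intro k u hu
    have h1 := (stdOrthonormalBasis ℝ (V k)).sum_repr ⟨u, hu⟩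
    have h2 := congrArg (fun x : V k => (x : H)) h1
    simp only [Submodule.coe_sum, Submodule.coe_smul] at h2
    rw [← h2]
    refine Submodule.sum_mem _ fun i _ => Submodule.smul_mem _ _ (Submodule.subset_span ?_)
    exact ⟨⟨k, i⟩, rfl⟩
  have hbot : (Submodule.span ℝ (Set.range v))ᗮ = ⊥ := by
    rw [eq_bot_iff, ← hd]
    exact Submodule.orthogonal_le (iSup_le hle)
  refine ⟨HilbertBasis.mkOfOrthogonalEqBot hv hbot, fun a => ?_⟩
  rw [HilbertBasis.coe_mkOfOrthogonalEqBot]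
  exact (stdOrthonormalBasis ℝ (V a.1) a.2).2

/-- Upper bound for the heat trace of the constant weight. -/
theorem heatTrace_one_le (t : ℝ) :
    heatTrace (fun _ : Sph 3 => (1 : ℝ)) t ≤
      ∑' k : ℕ, ((k + 1) ^ 2 : ℕ) * ENNReal.ofReal (Real.exp (-t * lamk k)) := by
  have hW : IsSmooth (fun _ : Sph 3 => (1 : ℝ)) := isSmooth_const 1
  have hpos : ∀ x : Sph 3, (0 : ℝ) < (fun _ : Sph 3 => (1 : ℝ)) x := fun _ => one_pos
  have hfam : OrthogonalFamily ℝ (fun k => HH 3 k) fun k => (HH 3 k).subtypeₗᵢ := by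
    intro j k hjk u w
    exact HH_orthogonal hjk u.2 w.2
  have h1 : (⨆ k, HH 3 k)ᗮ = ⊥ := by
    rw [← Submodule.topologicalClosure_eq_top_iff]
    exact iSup_HH_dense
  obtain ⟨b, hb⟩ := exists_adapted_basis (HH 3) hfam h1
  rw [heatTrace_eq hW hpos b (fun a => lamk a.1) (fun a => isEigen_one (hb a)),
    ENNReal.tsum_sigma']
  refine ENNReal.tsum_le_tsum fun k => ?_
  rw [tsum_fintype]
  simp only [Finset.sum_const, Finset.card_univ, Fintype.card_fin, nsmul_eq_mul]
  gcongr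
  exact finrank_HH_le k

/-! ### The lower bound -/

section W

variable {W : Sph 3 → ℝ} (hW : IsSmooth W) (hpos : ∀ x, 0 < W x)

lemma exp_tangent (x m : ℝ) : Real.exp (-m) * (1 - (x - m)) ≤ Real.exp (-x) := by
  have h1 : Real.exp (-x) = Real.exp (-m) * Real.exp (-(x - m)) := by
    rw [← Real.exp_add]; congr 1; ring
  rw [h1]
  have h2 := Real.add_one_le_exp (-(x - m))
  have h3 := Real.exp_pos (-m)
  nlinarith

include hW hpos in
lemma YW_continuous {φ : Sph 3 → ℝ} (hφ : IsSmooth φ) : Continuous (YW W φ) := by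
  unfold YW
  exact (hW.rpow hpos _).continuous.mul ((hW.rpow hpos _).mul hφ).confLap

include hW hpos in
/-- Lower bound of the heat trace by trial functions. -/
theorem heatTrace_ge {κ : Type} [Fintype κ] (ψ : κ → Sph 3 → ℝ) (hψ : ∀ s, IsSmooth (ψ s))
    (hB : ∀ u : L2S 3, ∑ s, (∫ x, u x * ψ s x ∂(area 3)) ^ 2 ≤ ‖u‖ ^ 2)
    (m : κ → ℝ) (t : ℝ) :
    ENNReal.ofReal (∑ s, Real.exp (-t * m s) * ((1 + t * m s) * (∫ x, ψ s x * ψ s x ∂(area 3))
      - t * ∫ x, ψ s x * YW W (ψ s) x ∂(area 3))) ≤ heatTrace W t := by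
  obtain ⟨ι, b, lam, hb⟩ := exists_basis hW hpos
  rw [heatTrace_eq hW hpos b lam hb]
  set P : κ → L2S 3 := fun s => toL2 ⟨ψ s, (hψ s).continuous⟩ with hP
  set Q : κ → L2S 3 := fun s => toL2 ⟨YW W (ψ s), YW_continuous hW hpos (hψ s)⟩ with hQ
  set N : κ → ℝ := fun s => ∫ x, ψ s x * ψ s x ∂(area 3) with hNd
  set E : κ → ℝ := fun s => ∫ x, ψ s x * YW W (ψ s) x ∂(area 3) with hEd
  have hPu : ∀ (u : L2S 3) s, ⟪u, P s⟫_ℝ = ∫ x, u x * ψ s x ∂(area 3) := fun u s =>
    inner_L2_toL2 u ⟨ψ s, (hψ s).continuous⟩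
  have hN : ∀ s, HasSum (fun i => ⟪b i, P s⟫_ℝ ^ 2) (N s) := by
    intro s
    have h1 := b.hasSum_inner_mul_inner (P s) (P s)
    have h2 : ⟪P s, P s⟫_ℝ = N s := inner_toL2 _ _
    rw [h2] at h1
    have h3 : (fun i => ⟪P s, b i⟫_ℝ * ⟪b i, P s⟫_ℝ) = fun i => ⟪b i, P s⟫_ℝ ^ 2 := by
      funext i; rw [real_inner_comm, sq]
    rwa [h3] at h1
  have hE : ∀ s, HasSum (fun i => lam i * ⟪b i, P s⟫_ℝ ^ 2) (E s) := by
    intro s
    have h1 := b.hasSum_inner_mul_inner (P s) (Q s)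
    have h2 : ⟪P s, Q s⟫_ℝ = E s := inner_toL2 _ _
    rw [h2] at h1
    have h3 : (fun i => ⟪P s, b i⟫_ℝ * ⟪b i, Q s⟫_ℝ) = fun i => lam i * ⟪b i, P s⟫_ℝ ^ 2 := by
      funext i
      have h4 : ⟪b i, Q s⟫_ℝ = lam i * ⟪b i, P s⟫_ℝ := by
        rw [hPu, ← hb i (ψ s) (hψ s)]
        exact inner_L2_toL2 (b i) ⟨YW W (ψ s), YW_continuous hW hpos (hψ s)⟩
      rw [h4, real_inner_comm]; ring
    rwa [h3] at h1
  set g : ι → ℝ := fun i => ∑ s, Real.exp (-t * m s) * ((1 + t * m s) * ⟪b i, P s⟫_ℝ ^ 2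
    - t * (lam i * ⟪b i, P s⟫_ℝ ^ 2)) with hg
  have hgs : HasSum g (∑ s, Real.exp (-t * m s) * ((1 + t * m s) * N s - t * E s)) :=
    hasSum_sum fun s _ => (((hN s).mul_left _).sub ((hE s).mul_left _)).mul_left _
  have hgle : ∀ i, g i ≤ Real.exp (-t * lam i) := by
    intro i
    have h1 : ∀ s, Real.exp (-t * m s) * ((1 + t * m s) * ⟪b i, P s⟫_ℝ ^ 2
        - t * (lam i * ⟪b i, P s⟫_ℝ ^ 2)) ≤ ⟪b i, P s⟫_ℝ ^ 2 * Real.exp (-t * lam i) := by
      intro s
      have h2 := exp_tangent (t * lam i) (t * m s)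
      have h3 : 0 ≤ ⟪b i, P s⟫_ℝ ^ 2 := sq_nonneg _
      have h4 := mul_le_mul_of_nonneg_left h2 h3
      rw [neg_mul, neg_mul]
      linarith
    calc g i ≤ ∑ s, ⟪b i, P s⟫_ℝ ^ 2 * Real.exp (-t * lam i) := Finset.sum_le_sum fun s _ => h1 s
      _ = (∑ s, ⟪b i, P s⟫_ℝ ^ 2) * Real.exp (-t * lam i) := by rw [Finset.sum_mul]
      _ ≤ 1 * Real.exp (-t * lam i) := by
        refine mul_le_mul_of_nonneg_right ?_ (Real.exp_pos _).le
        have h5 := hB (b i)
        simp_rw [← hPu] at h5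
        rw [b.orthonormal.1 i] at h5
        simpa using h5
      _ = _ := one_mul _
  have hgp : Summable (fun i => max (g i) 0) := by
    refine Summable.of_nonneg_of_le (fun i => le_max_right _ _) (fun i => ?_) hgs.summable.abs
    exact max_le (le_abs_self _) (abs_nonneg _)
  calc ENNReal.ofReal (∑ s, Real.exp (-t * m s) * ((1 + t * m s) * N s - t * E s))
      = ENNReal.ofReal (∑' i, g i) := by rw [hgs.tsum_eq]
    _ ≤ ENNReal.ofReal (∑' i, max (g i) 0) :=
        ENNReal.ofReal_le_ofReal (hgs.summable.tsum_le_tsum (fun i => le_max_left _ _) hgp)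
    _ = ∑' i, ENNReal.ofReal (max (g i) 0) :=
        ENNReal.ofReal_tsum_of_nonneg (fun i => le_max_right _ _) hgp
    _ ≤ ∑' i, ENNReal.ofReal (Real.exp (-t * lam i)) := by
        refine ENNReal.tsum_le_tsum fun i => ENNReal.ofReal_le_ofReal ?_
        exact max_le (hgle i) (Real.exp_pos _).le

end W

end Pool.Agent.HeatSphere
end

section
set_option autoImplicit false

namespace Pool.Agent.HeatSphere

open MeasureTheory Metric Set Module
open scoped ENNReal Manifold ContDiff Laplacian Pointwise InnerProductSpace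

open Pool.Agent.Lib in
lemma extend_eq {n : ℕ} (u : Sph n → ℝ) : MP_4a15bf_mp.extend u = radExt u := by
  funext y
  unfold MP_4a15bf_mp.extend radExt
  by_cases h : y = 0
  · simp [h]
  · simp [h]

open Pool.Agent.Lib in
lemma isSmooth_h5 {n : ℕ} (u : Sph n → ℝ) : MP_4a15bf_mp.IsSmooth u ↔ IsSmooth u := by
  rw [isSmooth_iff, ← extend_eq]
  rfl

open Pool.Agent.Lib in
lemma yamabeW_eq {n : ℕ} (W u : Sph n → ℝ) : MP_4a15bf_mp.yamabeW W u = YW W u := by
  funext x
  unfold MP_4a15bf_mp.yamabeW YW MP_4a15bf_mp.yamabe confLap MP_4a15bf_mp.laplaceBeltrami lapB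
  rw [extend_eq]

open Pool.Agent.Lib in
lemma isWeight_h5 {n : ℕ} {W : Sph n → ℝ} (h : MP_4a15bf_mp.IsWeight W) : IsWeight W where
  smooth := (isSmooth_h5 W).1 h.1
  pos := h.2.1
  normalised := h.2.2

/-- Trial functions bound the heat trace from below. -/
theorem heatTrace_ge_orthonormal {W : Sph 3 → ℝ} (hW : IsSmooth W) (hpos : ∀ x, 0 < W x) {m : ℕ}
    (v : Fin m → Sph 3 → ℝ) (hv : ∀ i, IsSmooth (v i))
    (ho : ∀ i j, ∫ x, v i x * v j x ∂(area 3) = if i = j then 1 else 0) (t : ℝ) :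
    ∑ i, ENNReal.ofReal (Real.exp (-t * ∫ x, v i x * YW W (v i) x ∂(area 3))) ≤
      heatTrace W t := by
  have h1 := heatTrace_ge hW hpos v hv (fun u => ?_)
    (fun i => ∫ x, v i x * YW W (v i) x ∂(area 3)) t
  · refine le_trans (le_of_eq ?_) h1
    rw [← ENNReal.ofReal_sum_of_nonneg (fun i _ => (Real.exp_pos _).le)]
    congr 1
    refine Finset.sum_congr rfl fun i _ => ?_
    rw [ho i i, if_pos rfl]
    ring
  · have hon : Orthonormal ℝ (fun i => toL2 ⟨v i, (hv i).continuous⟩) := by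
      rw [orthonormal_iff_ite]
      intro i j
      rw [inner_toL2]
      exact ho i j
    have h2 := hon.sum_inner_products_le u (s := Finset.univ)
    refine le_trans (Finset.sum_le_sum fun i _ => ?_) h2
    rw [real_inner_comm, inner_L2_toL2, Real.norm_eq_abs, sq_abs]
    rfl

open Pool.Agent.Lib in
lemma heatTrace_h5_le {W : Sph 3 → ℝ} (hW : IsSmooth W) (hpos : ∀ x, 0 < W x) (t : ℝ) :
    MP_4a15bf_mp.heatTrace W t ≤ heatTrace W t := by
  unfold MP_4a15bf_mp.heatTrace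
  refine iSup_le fun m => iSup_le fun v => iSup_le fun hv => ?_
  have h1 := heatTrace_ge_orthonormal hW hpos v (fun i => (isSmooth_h5 _).1 (hv.1 i))
    (fun i j => hv.2 i j) t
  simp_rw [yamabeW_eq]
  exact h1

open Pool.Agent.Lib in
lemma bestConst_le {W : Sph 3 → ℝ} (hW : IsSmooth W) (hpos : ∀ x, 0 < W x) :
    MP_4a15bf_mp.bestConst W ≤ bestC W := by
  unfold MP_4a15bf_mp.bestConst bestC
  refine iSup_mono fun t => iSup_mono fun _ => ?_
  gcongr
  exact heatTrace_h5_le hW hpos t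

/-- There is a weight on `S³` whose best constant is larger than `0.65`. -/
theorem exists_weight : ∃ W : Sph 3 → ℝ, IsWeight W ∧ ENNReal.ofReal 0.65 < bestC W := by
  obtain ⟨W, hW, h⟩ := Pool.Agent.Lib.MP_4a15bf_mp.exists_weight
  have hW' := isWeight_h5 hW
  exact ⟨W, hW', lt_of_lt_of_le h (bestConst_le hW'.smooth hW'.pos)⟩

/-- The best constant of the constant weight, from the numerical bound. -/
theorem bestC_one_le (hnum : ∀ t : ℝ, 0 < t → ∀ N : ℕ, t ^ ((3 : ℝ) / 2) *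
      ∑ k ∈ Finset.range N, ((k : ℝ) + 1) ^ 2 * Real.exp (-t * (((k : ℝ) + 1) ^ 2 - 1 / 4)) ≤
        0.65) :
    bestC (fun _ : Sph 3 => (1 : ℝ)) ≤ ENNReal.ofReal 0.65 := by
  unfold bestC
  refine iSup_le fun t => iSup_le fun ht => ?_
  refine le_trans (mul_le_mul_right (heatTrace_one_le t) _) ?_
  rw [ENNReal.tsum_eq_iSup_nat, ENNReal.mul_iSup]
  refine iSup_le fun N => ?_
  have h1 : ∑ k ∈ Finset.range N, (((k + 1) ^ 2 : ℕ) : ℝ≥0∞) * ENNReal.ofReal (Real.exp (-t * lamk k)) =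
      ENNReal.ofReal (∑ k ∈ Finset.range N, ((k : ℝ) + 1) ^ 2 *
        Real.exp (-t * (((k : ℝ) + 1) ^ 2 - 1 / 4))) := by
    rw [ENNReal.ofReal_sum_of_nonneg (fun k _ => by positivity)]
    refine Finset.sum_congr rfl fun k _ => ?_
    rw [ENNReal.ofReal_mul (by positivity), lamk_eq]
    congr 1
    rw [← ENNReal.ofReal_natCast]
    congr 1
    push_cast
    ring
  rw [h1, ← ENNReal.ofReal_mul (by positivity)]
  apply ENNReal.ofReal_le_ofReal
  have h2 := hnum t ht N
  have h3 : ((3 : ℕ) / 2 : ℝ) = (3 : ℝ) / 2 := by norm_num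
  rw [h3]
  exact h2

end Pool.Agent.HeatSphere
end
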