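import Mathlib

set_option autoImplicit false

namespace Pool.Agent.HeatSphere

open MeasureTheory Metric
open scoped ENNReal Manifold ContDiff Laplacian

/-- The Euclidean space `ℝ^{n+1}`. -/
abbrev Amb (n : ℕ) : Type := EuclideanSpace ℝ (Fin (n + 1))

/-- The unit sphere `S^n ⊂ ℝ^{n+1}`. -/
abbrev Sph (n : ℕ) : Type := sphere (0 : Amb n) 1

instance factFinrank (n : ℕ) : Fact (Module.finrank ℝ (Amb n) = n + 1) := ⟨by simp⟩

/-- The Riemannian (surface) measure of the round unit sphere `S^n`. -/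
noncomputable def area (n : ℕ) : Measure (Sph n) := (volume : Measure (Amb n)).toSphere

/-- Smooth real functions on `S^n` (for the manifold structure of the sphere). -/
def IsSmooth {n : ℕ} (u : Sph n → ℝ) : Prop := ContMDiff (𝓡 n) 𝓘(ℝ, ℝ) ∞ u

/-- The extension of a function on `S^n` to `ℝ^{n+1}` which is constant along rays
(with the value `0` at the origin). -/
noncomputable def radExt {n : ℕ} (u : Sph n → ℝ) : Amb n → ℝ := fun y =>
  if h : y = 0 then 0 else
    u ⟨‖y‖⁻¹ • y, by
      rw [mem_sphere_zero_iff_norm, norm_smul, norm_inv, norm_norm,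
        inv_mul_cancel₀ (norm_ne_zero_iff.mpr h)]⟩

/-- The (nonpositive) Laplace–Beltrami operator of the round sphere `S^n`: the Euclidean Laplacian
of the extension constant along rays, restricted to the sphere. -/
noncomputable def lapB {n : ℕ} (u : Sph n → ℝ) : Sph n → ℝ := fun x => (Δ (radExt u)) (x : Amb n)

/-- The conformal Laplacian `Y = -Δ + (n/2)(n/2 - 1)` of the round sphere. -/
noncomputable def confLap {n : ℕ} (u : Sph n → ℝ) : Sph n → ℝ := fun x =>
  -lapB u x + (n / 2 : ℝ) * ((n / 2 : ℝ) - 1) * u x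

/-- Admissible weights: smooth, positive, with `∫ W^{n/2} = vol(S^n)`. -/
structure IsWeight {n : ℕ} (W : Sph n → ℝ) : Prop where
  smooth : IsSmooth W
  pos : ∀ x, 0 < W x
  normalised : ∫ x, W x ^ (n / 2 : ℝ) ∂(area n) = (area n).real Set.univ

/-- `Y_W φ = W^{-1/2} Y (W^{-1/2} φ)`. -/
noncomputable def YW {n : ℕ} (W : Sph n → ℝ) (φ : Sph n → ℝ) : Sph n → ℝ := fun x =>
  W x ^ (-(1 / 2) : ℝ) * confLap (fun y => W y ^ (-(1 / 2) : ℝ) * φ y) x

end Pool.Agent.HeatSphere
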