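import Pool.Agent.Lib.MP_4a15bf_mp.Defs

set_option autoImplicit false

namespace Pool.Agent.HeatSphere

open MeasureTheory Metric
open scoped ENNReal

/-- Square integrable functions on `S^n`. -/
def SqInt {n : ℕ} (u : Sph n → ℝ) : Prop := MemLp u 2 (area n)

/-- The inner product of `L²(S^n)`. -/
noncomputable def ip {n : ℕ} (u v : Sph n → ℝ) : ℝ := ∫ x, u x * v x ∂(area n)

/-- The function `u ∈ L²(S^n)` is an eigenfunction (possibly zero) of `Y_W` for `lam`: it satisfies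
`Y_W u = lam u`, tested against smooth functions (that is, `u` is in the kernel of
`(Y_W)* - lam`, where `Y_W` has the domain `C^∞(S^n)`). -/
def Eigenfn {n : ℕ} (W : Sph n → ℝ) (lam : ℝ) (u : Sph n → ℝ) : Prop :=
  SqInt u ∧ ∀ φ : Sph n → ℝ, IsSmooth φ → ip u (YW W φ) = lam * ip u φ

/-- The family `u` is orthonormal in `L²(S^n)`. -/
def OrthoN {n : ℕ} {ι : Type} (u : ι → Sph n → ℝ) : Prop :=
  (∀ i, ip (u i) (u i) = 1) ∧ ∀ i j, i ≠ j → ip (u i) (u j) = 0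

/-- `u` is an orthonormal basis of `L²(S^n)` made of eigenfunctions of `Y_W`, with the
eigenvalues `lam`. -/
structure Eigenbasis {n : ℕ} (W : Sph n → ℝ) {ι : Type} (u : ι → Sph n → ℝ) (lam : ι → ℝ) :
    Prop where
  eigen : ∀ i, Eigenfn W (lam i) (u i)
  ortho : OrthoN u
  complete : ∀ f : Sph n → ℝ, SqInt f → (∀ i, ip f (u i) = 0) → ∀ᵐ x ∂(area n), f x = 0

/-- `Tr e^{-t Y_W}`: the sum of `e^{-t lam}` over all eigenvalues with multiplicity, i.e. the
supremum of `∑ e^{-t lam_i}` over all finite orthonormal systems of eigenfunctions. -/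
noncomputable def heatTr {n : ℕ} (W : Sph n → ℝ) (t : ℝ) : ℝ≥0∞ :=
  ⨆ (m : ℕ) (lam : Fin m → ℝ) (u : Fin m → Sph n → ℝ) (_ : OrthoN u)
    (_ : ∀ i, Eigenfn W (lam i) (u i)), ∑ i, ENNReal.ofReal (Real.exp (-t * lam i))

/-- `C(W) = sup_{t>0} t^{n/2} Tr e^{-t Y_W}`. -/
noncomputable def bestCst {n : ℕ} (W : Sph n → ℝ) : ℝ≥0∞ :=
  ⨆ (t : ℝ) (_ : 0 < t), ENNReal.ofReal (t ^ (n / 2 : ℝ)) * heatTr W t

end Pool.Agent.HeatSphere
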