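import Mathlib
import Pool.Agent.Lib.MP_4a15bf_mp.Stmt
import Pool.Agent.Lib.MP_4a15bf_mp.Bridge

section
/-!
Numerical bound: `t^{3/2} ∑ n² exp(-t (n² - 1/4)) ≤ 0.65` for all `t > 0`.
-/
set_option autoImplicit false

namespace Pool.Agent.Lib.MP_4a15bf_mp

open Set Filter Topology Real

/-- The one-sided theta series. -/
noncomputable def Tt (s : ℝ) : ℝ := ∑' n : ℕ, exp (-s * ((n : ℝ) + 1) ^ 2)

lemma term_le {s : ℝ} (hs : 0 < s) (n : ℕ) :
    exp (-s * ((n : ℝ) + 1) ^ 2) ≤ exp (-s) * exp (-s) ^ n := by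
  rw [← pow_succ', ← exp_nat_mul]
  apply exp_le_exp.2
  push_cast
  nlinarith [mul_nonneg hs.le (mul_nonneg (Nat.cast_nonneg (α := ℝ) n) (Nat.cast_nonneg (α := ℝ) n)),
    mul_nonneg hs.le (Nat.cast_nonneg (α := ℝ) n)]

lemma exp_neg_lt_one' {s : ℝ} (hs : 0 < s) : exp (-s) < 1 := by
  rw [exp_lt_one_iff]; linarith

lemma summable_T {s : ℝ} (hs : 0 < s) : Summable fun n : ℕ => exp (-s * ((n : ℝ) + 1) ^ 2) := by
  refine Summable.of_nonneg_of_le (fun n => (exp_pos _).le) (term_le hs) ?_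
  exact (summable_geometric_of_lt_one (exp_pos _).le (exp_neg_lt_one' hs)).mul_left _

lemma T_nonneg (s : ℝ) : 0 ≤ Tt s := tsum_nonneg fun _ => (exp_pos _).le

lemma T_le {s : ℝ} (hs : 0 < s) : Tt s ≤ exp (-s) * (1 - exp (-s))⁻¹ := by
  have h1 := (summable_geometric_of_lt_one (exp_pos (-s)).le (exp_neg_lt_one' hs)).mul_left (exp (-s))
  have h2 := (summable_T hs).tsum_le_tsum (term_le hs) h1
  rwa [tsum_mul_left, tsum_geometric_of_lt_one (exp_pos _).le (exp_neg_lt_one' hs)] at h2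

lemma theta_eq {s : ℝ} (hs : 0 < s) : ∑' n : ℤ, exp (-s * (n : ℝ) ^ 2) = 1 + 2 * Tt s := by
  have hT := (summable_T hs).hasSum
  have h1 : HasSum (fun n : ℕ => exp (-s * (((-((n : ℤ) + 1) : ℤ)) : ℝ) ^ 2)) (Tt s) := by
    refine hT.congr_fun ?_ |> fun h => h
    intro n
    push_cast
    congr 1
    ring
  have h2 : HasSum (fun n : ℕ => exp (-s * (((n : ℤ)) : ℝ) ^ 2)) (1 + Tt s) := by
    have : HasSum (fun n : ℕ => exp (-s * (((n + 1 : ℕ) : ℤ) : ℝ) ^ 2)) (Tt s) := by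
      refine hT.congr_fun ?_ |> fun h => h
      intro n
      push_cast
      rfl
    refine (hasSum_nat_add_iff' (f := fun n : ℕ => exp (-s * (((n : ℤ)) : ℝ) ^ 2)) 1).1 ?_
    simpa using this
  have h4 := HasSum.of_nat_of_neg_add_one (f := fun n : ℤ => exp (-s * (n : ℝ) ^ 2)) h2 h1
  rw [h4.tsum_eq]
  ring

lemma theta_func {s : ℝ} (hs : 0 < s) :
    1 + 2 * Tt s = sqrt (π / s) * (1 + 2 * Tt (π ^ 2 / s)) := by
  have h := Real.tsum_exp_neg_mul_int_sq (a := s / π) (by positivity)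
  have e1 : -π * (s / π) = -s := by field_simp
  have e2 : -π / (s / π) = -(π ^ 2 / s) := by field_simp
  rw [e1, e2, theta_eq hs, theta_eq (by positivity)] at h
  rw [h, ← sqrt_eq_rpow, one_div, ← sqrt_inv, inv_div]

lemma diff_ge {t h : ℝ} (ht : 0 < t) (hh : 0 < h) (hth : h < t) (N : ℕ) :
    h * ∑ k ∈ Finset.range N, ((k : ℝ) + 1) ^ 2 * exp (-t * ((k : ℝ) + 1) ^ 2) ≤
      Tt (t - h) - Tt t := by
  have h1 := summable_T (s := t - h) (by linarith)
  have h2 := summable_T ht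
  unfold Tt
  rw [← h1.tsum_sub h2, Finset.mul_sum]
  have key : ∀ n : ℕ, h * (((n : ℝ) + 1) ^ 2 * exp (-t * ((n : ℝ) + 1) ^ 2)) ≤
      exp (-(t - h) * ((n : ℝ) + 1) ^ 2) - exp (-t * ((n : ℝ) + 1) ^ 2) := by
    intro n
    have e : exp (-(t - h) * ((n : ℝ) + 1) ^ 2) =
        exp (h * ((n : ℝ) + 1) ^ 2) * exp (-t * ((n : ℝ) + 1) ^ 2) := by
      rw [← exp_add]; ring_nf
    rw [e]
    have := add_one_le_exp (h * ((n : ℝ) + 1) ^ 2)
    nlinarith [exp_pos (-t * ((n : ℝ) + 1) ^ 2)]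
  refine (Finset.sum_le_sum fun n _ => key n).trans ?_
  refine (h1.sub h2).sum_le_tsum _ fun n _ => ?_
  refine le_trans ?_ (key n)
  positivity

lemma exp_quarter_le : exp (1 / 4 : ℝ) ≤ 1.2841 := by
  have h1 : exp (1 / 4 : ℝ) ^ 4 = exp 1 := by
    rw [← exp_nat_mul]; norm_num
  by_contra h
  push Not at h
  have h2 : (1.2841 : ℝ) ^ 4 < exp (1 / 4 : ℝ) ^ 4 := pow_lt_pow_left₀ h (by norm_num) (by norm_num)
  rw [h1] at h2
  have := exp_one_lt_d9
  norm_num at h2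
  linarith

lemma exp_neg_quarter_le : exp (-(1 / 4) : ℝ) ≤ 0.77881 := by
  have h1 : exp (-(1 / 4) : ℝ) ^ 4 = exp (-1) := by
    rw [← exp_nat_mul]; norm_num
  by_contra h
  push Not at h
  have h2 : (0.77881 : ℝ) ^ 4 < exp (-(1 / 4) : ℝ) ^ 4 :=
    pow_lt_pow_left₀ h (by norm_num) (by norm_num)
  rw [h1, exp_neg] at h2
  have := exp_one_gt_d9
  have h3 : (exp 1)⁻¹ < (2.7182818283 : ℝ)⁻¹ := by
    apply inv_strictAnti₀ (by norm_num) this
  have h4 : (2.7182818283 : ℝ)⁻¹ < 0.77881 ^ 4 := by norm_num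
  linarith

/-- Bound for small `t`. -/
lemma small_bound {t : ℝ} (ht : 0 < t) (ht1 : t ≤ 1) (N : ℕ) :
    t ^ (3 / 2 : ℝ) * ∑ k ∈ Finset.range N, ((k : ℝ) + 1) ^ 2 * exp (-t * (((k : ℝ) + 1) ^ 2 - 1 / 4))
      ≤ 0.65 := by
  have e0 : ∑ k ∈ Finset.range N, ((k : ℝ) + 1) ^ 2 * exp (-t * (((k : ℝ) + 1) ^ 2 - 1 / 4)) =
      exp (t / 4) * ∑ k ∈ Finset.range N, ((k : ℝ) + 1) ^ 2 * exp (-t * ((k : ℝ) + 1) ^ 2) := by
    rw [Finset.mul_sum]
    refine Finset.sum_congr rfl fun k _ => ?_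
    rw [← mul_assoc, mul_comm (exp (t / 4)), mul_assoc, ← exp_add]
    ring_nf
  set Q := ∑ k ∈ Finset.range N, ((k : ℝ) + 1) ^ 2 * exp (-t * ((k : ℝ) + 1) ^ 2) with hQ
  have hQ0 : 0 ≤ Q := Finset.sum_nonneg fun k _ => by positivity
  have h1 := diff_ge (t := t) (h := t / 10) ht (by positivity) (by linarith) N
  rw [← hQ] at h1
  have h2 := theta_func ht
  have h3 := theta_func (s := t - t / 10) (by linarith)
  have h4 : Tt (π ^ 2 / (t - t / 10)) ≤ 0.00005 := by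
    have hp : 0 < π ^ 2 / (t - t / 10) := by
      apply div_pos (by positivity); linarith
    have h5 : (10.5 : ℝ) ≤ π ^ 2 / (t - t / 10) := by
      rw [le_div_iff₀ (by linarith)]
      nlinarith [pi_gt_d2]
    have h6 : exp (-(π ^ 2 / (t - t / 10))) ≤ 0.00003 := by
      have : exp (-(π ^ 2 / (t - t / 10))) ≤ exp (-(1 / 4)) ^ 42 := by
        rw [← exp_nat_mul]
        apply exp_le_exp.2
        norm_num
        linarith
      refine this.trans ((pow_le_pow_left₀ (exp_pos _).le exp_neg_quarter_le 42).trans ?_)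
      norm_num
    refine (T_le hp).trans ?_
    have h7 : (1 - exp (-(π ^ 2 / (t - t / 10))))⁻¹ ≤ (1 - 0.00003)⁻¹ := by
      apply inv_anti₀ (by norm_num); linarith
    calc exp (-(π ^ 2 / (t - t / 10))) * (1 - exp (-(π ^ 2 / (t - t / 10))))⁻¹
        ≤ 0.00003 * (1 - 0.00003)⁻¹ := by
          apply mul_le_mul h6 h7 (inv_nonneg.2 (by linarith)) (by norm_num)
      _ ≤ 0.00005 := by norm_num
  have h8 := T_nonneg (π ^ 2 / t)
  have hs : 0 < sqrt (π / t) := by positivity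
  have e3 : sqrt (π / (t - t / 10)) ≤ 1.0541 * sqrt (π / t) := by
    have : (1.0541 : ℝ) * sqrt (π / t) = sqrt (1.0541 ^ 2 * (π / t)) := by
      rw [sqrt_mul (by norm_num), sqrt_sq (by norm_num)]
    rw [this]
    apply sqrt_le_sqrt
    have e : t - t / 10 = 9 / 10 * t := by ring
    rw [e, div_le_iff₀ (by positivity)]
    have : 1.0541 ^ 2 * (π / t) * (9 / 10 * t) = (1.0541 ^ 2 * (9 / 10)) * π := by
      field_simp
    rw [this]
    nlinarith [pi_pos]
  have h9 : 2 * (Tt (t - t / 10) - Tt t) ≤ 0.05426 * sqrt (π / t) := by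
    have a1 : 1 + 2 * Tt (t - t / 10) ≤ 1.0541 * sqrt (π / t) * 1.0001 := by
      rw [h3]
      apply mul_le_mul e3 (by linarith) (by linarith [T_nonneg (π ^ 2 / (t - t / 10))]) (by positivity)
    have a2 : sqrt (π / t) ≤ 1 + 2 * Tt t := by
      rw [h2]; nlinarith
    linarith
  have h10 : t * Q ≤ 0.2713 * sqrt (π / t) := by linarith
  have h11 : t ^ (3 / 2 : ℝ) * Q ≤ 0.2713 * sqrt π := by
    have e4 : t ^ (3 / 2 : ℝ) = t * sqrt t := by
      rw [sqrt_eq_rpow]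
      nth_rewrite 2 [← rpow_one t]
      rw [← rpow_add ht]; norm_num
    have e5 : sqrt (π / t) * sqrt t = sqrt π := by
      rw [← sqrt_mul (by positivity)]; congr 1; field_simp
    rw [e4]
    calc t * sqrt t * Q = (t * Q) * sqrt t := by ring
      _ ≤ (0.2713 * sqrt (π / t)) * sqrt t := by gcongr
      _ = 0.2713 * sqrt π := by rw [mul_assoc, e5]
  have h12 : sqrt π ≤ 1.7725 := by
    rw [sqrt_le_left (by norm_num)]
    have := pi_lt_d4
    norm_num
    linarith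
  have h13 : exp (t / 4) ≤ 1.2841 := (exp_le_exp.2 (by linarith)).trans exp_quarter_le
  rw [e0]
  have h14 : 0 ≤ t ^ (3 / 2 : ℝ) * Q := by positivity
  calc t ^ (3 / 2 : ℝ) * (exp (t / 4) * Q) = exp (t / 4) * (t ^ (3 / 2 : ℝ) * Q) := by ring
    _ ≤ 1.2841 * (0.2713 * 1.7725) := by
        apply mul_le_mul h13 (h11.trans (by linarith)) h14 (by norm_num)
    _ ≤ 0.65 := by norm_num

lemma sq_le_nine (m : ℕ) : ((m : ℝ) + 3) ^ 2 ≤ 9 * 2 ^ m := by
  induction m with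
  | zero => norm_num
  | succ m ih =>
    have hm := Nat.cast_nonneg (α := ℝ) m
    have e : (9 : ℝ) * 2 ^ (m + 1) = 2 * (9 * 2 ^ m) := by rw [pow_succ]; ring
    rw [e]
    push_cast
    nlinarith

/-- Bound on the sum for `t ≥ 1`. -/
lemma large_sum {t : ℝ} (ht : 1 ≤ t) (N : ℕ) :
    ∑ k ∈ Finset.range N, ((k : ℝ) + 1) ^ 2 * exp (-t * (((k : ℝ) + 1) ^ 2 - 1 / 4)) ≤
      exp (-(3 / 4) * t) * (1 + 4.1 * exp (-3 * t)) := by
  have hmono : ∑ k ∈ Finset.range N, ((k : ℝ) + 1) ^ 2 * exp (-t * (((k : ℝ) + 1) ^ 2 - 1 / 4)) ≤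
      ∑ k ∈ Finset.range (N + 2), ((k : ℝ) + 1) ^ 2 * exp (-t * (((k : ℝ) + 1) ^ 2 - 1 / 4)) := by
    apply Finset.sum_le_sum_of_subset_of_nonneg
    · exact Finset.range_subset_range.2 (by omega)
    · intros; positivity
  refine hmono.trans ?_
  rw [Finset.sum_range_succ', Finset.sum_range_succ']
  have key : ∀ m ∈ Finset.range N, (((m + 1 + 1 : ℕ) : ℝ) + 1) ^ 2 *
      exp (-t * ((((m + 1 + 1 : ℕ) : ℝ) + 1) ^ 2 - 1 / 4)) ≤
      exp (-(3 / 4) * t) * exp (-3 * t) * ((9 * 0.0068) * (1 / 50) ^ m) := by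
    intro m _
    have hm := Nat.cast_nonneg (α := ℝ) m
    have e1 : exp (-t * ((((m + 1 + 1 : ℕ) : ℝ) + 1) ^ 2 - 1 / 4)) ≤
        exp (-(3 / 4) * t) * exp (-3 * t) * (exp (-5) * exp (-5) ^ m) := by
      rw [← pow_succ', ← exp_nat_mul, ← exp_add, ← exp_add]
      apply exp_le_exp.2
      push_cast
      nlinarith [mul_nonneg hm hm, mul_nonneg (mul_nonneg hm hm) (sub_nonneg.2 ht),
        mul_nonneg hm (sub_nonneg.2 ht)]
    have e2 : exp (-5 : ℝ) ≤ 0.0068 := by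
      have : exp (-5 : ℝ) = exp (-(1 / 4)) ^ 20 := by rw [← exp_nat_mul]; norm_num
      rw [this]
      refine (pow_le_pow_left₀ (exp_pos _).le exp_neg_quarter_le 20).trans ?_
      norm_num
    have e3 : (((m + 1 + 1 : ℕ) : ℝ) + 1) ^ 2 ≤ 9 * 2 ^ m := by
      have := sq_le_nine m
      push_cast
      calc ((m : ℝ) + 1 + 1 + 1) ^ 2 = (m + 3) ^ 2 := by ring
        _ ≤ _ := this
    have e4 : exp (-5 : ℝ) * exp (-5) ^ m ≤ 0.0068 * 0.0068 ^ m := by
      gcongr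
    calc _ ≤ (9 * 2 ^ m) * (exp (-(3 / 4) * t) * exp (-3 * t) * (0.0068 * 0.0068 ^ m)) := by
          apply mul_le_mul e3 (e1.trans _) (exp_pos _).le (by positivity)
          gcongr
      _ = exp (-(3 / 4) * t) * exp (-3 * t) * ((9 * 0.0068) * (2 * 0.0068) ^ m) := by
          rw [mul_pow]; ring
      _ ≤ _ := by
          gcongr
          norm_num
  have h1 := Finset.sum_le_sum key
  rw [← Finset.mul_sum, ← Finset.mul_sum] at h1
  have h2 : ∑ m ∈ Finset.range N, (1 / 50 : ℝ) ^ m ≤ 50 / 49 := by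
    have hs := summable_geometric_of_lt_one (r := (1 / 50 : ℝ)) (by norm_num) (by norm_num)
    have := hs.sum_le_tsum (Finset.range N) (fun i _ => by positivity)
    rw [tsum_geometric_of_lt_one (by norm_num) (by norm_num)] at this
    refine this.trans (by norm_num)
  have h3 : exp (-(3 / 4) * t) * exp (-3 * t) * ((9 * 0.0068) * ∑ m ∈ Finset.range N, (1 / 50 : ℝ) ^ m)
      ≤ exp (-(3 / 4) * t) * exp (-3 * t) * 0.1 := by
    gcongr
    linarith
  have e5 : exp (-t * (((((0 + 1 : ℕ) : ℝ)) + 1) ^ 2 - 1 / 4)) = exp (-(3 / 4) * t) * exp (-3 * t) := by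
    rw [← exp_add]; norm_num; ring
  have e6 : exp (-t * (((((0 : ℕ) : ℝ)) + 1) ^ 2 - 1 / 4)) = exp (-(3 / 4) * t) := by
    norm_num; ring
  rw [e5, e6]
  have e7 : ((((0 + 1 : ℕ) : ℝ)) + 1) ^ 2 = 4 := by norm_num
  have e8 : ((((0 : ℕ) : ℝ)) + 1) ^ 2 = 1 := by norm_num
  rw [e7, e8]
  have := h1.trans h3
  have e9 : exp (-(3 / 4) * t) * (1 + 4.1 * exp (-3 * t)) =
      exp (-(3 / 4) * t) * exp (-3 * t) * 0.1 + 4 * (exp (-(3 / 4) * t) * exp (-3 * t)) +
        1 * exp (-(3 / 4) * t) := by ring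
  rw [e9]
  gcongr

lemma mono_aux {a b : ℝ} (ha : 0 < a) (hab : a ≤ b) (hb : b ≤ 2) :
    a * exp (-a / 2) ≤ b * exp (-b / 2) := by
  have e : b * exp (-b / 2) = (b * exp (-(b - a) / 2)) * exp (-a / 2) := by
    rw [mul_assoc, ← exp_add]; ring_nf
  rw [e]
  apply mul_le_mul_of_nonneg_right _ (exp_pos _).le
  have := add_one_le_exp (-(b - a) / 2)
  nlinarith [mul_nonneg (sub_nonneg.2 hab) (sub_nonneg.2 hb)]

lemma max_aux (t : ℝ) : t * exp (-t / 2) ≤ 2 * exp (-1) := by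
  have := add_one_le_exp (t / 2 - 1)
  have e : 2 * exp (-1) = 2 * exp (t / 2 - 1) * exp (-t / 2) := by
    rw [mul_assoc, ← exp_add]; ring_nf
  rw [e]
  apply mul_le_mul_of_nonneg_right _ (exp_pos _).le
  linarith

/-- Bound for `t ≥ 1`. -/
lemma large_fun {t : ℝ} (ht : 1 ≤ t) :
    t ^ (3 / 2 : ℝ) * (exp (-(3 / 4) * t) * (1 + 4.1 * exp (-3 * t))) ≤ 0.65 := by
  have ht0 : 0 < t := by linarith
  have hF0 : 0 ≤ t ^ (3 / 2 : ℝ) * (exp (-(3 / 4) * t) * (1 + 4.1 * exp (-3 * t))) := by positivity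
  have hsq : (t ^ (3 / 2 : ℝ) * (exp (-(3 / 4) * t) * (1 + 4.1 * exp (-3 * t)))) ^ 2 =
      (t * exp (-t / 2)) ^ 3 * (1 + 4.1 * exp (-3 * t)) ^ 2 := by
    have e1 : (t ^ (3 / 2 : ℝ)) ^ 2 = t ^ 3 := by
      rw [← rpow_natCast, ← rpow_mul ht0.le]; norm_num
    have e2 : exp (-(3 / 4) * t) ^ 2 = exp (-t / 2) ^ 3 := by
      rw [← exp_nat_mul, ← exp_nat_mul]; push_cast; ring_nf
    rw [mul_pow, mul_pow, e1, e2, mul_pow]; ring
  have hu := exp_neg_quarter_le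
  have hpow : ∀ k : ℕ, exp (-((k : ℝ) / 4)) ≤ 0.77881 ^ k := by
    intro k
    have : exp (-((k : ℝ) / 4)) = exp (-(1 / 4)) ^ k := by rw [← exp_nat_mul]; ring_nf
    rw [this]
    exact pow_le_pow_left₀ (exp_pos _).le hu k
  -- on an interval `[k/6, (k+1)/6]`
  have step : ∀ k : ℕ, k ≤ 11 → (k : ℝ) / 6 ≤ t → t ≤ ((k : ℝ) + 1) / 6 →
      (t * exp (-t / 2)) ^ 3 * (1 + 4.1 * exp (-3 * t)) ^ 2 ≤
        (((k : ℝ) + 1) / 6) ^ 3 * 0.77881 ^ (k + 1) * (1 + 4.1 * 0.77881 ^ (2 * k)) ^ 2 := by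
    intro k hk h1 h2
    have hk' : (k : ℝ) ≤ 11 := by exact_mod_cast hk
    have a1 := mono_aux ht0 h2 (by linarith)
    have a2 : exp (-(((k : ℝ) + 1) / 6) / 2) ^ 3 ≤ 0.77881 ^ (k + 1) := by
      rw [← exp_nat_mul]
      have := hpow (k + 1)
      push_cast at this ⊢
      refine le_trans (le_of_eq ?_) this
      ring_nf
    have a3 : exp (-3 * t) ≤ 0.77881 ^ (2 * k) := by
      refine le_trans ?_ (hpow (2 * k))
      apply exp_le_exp.2
      push_cast
      linarith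
    have a4 : (t * exp (-t / 2)) ^ 3 ≤ (((k : ℝ) + 1) / 6) ^ 3 * 0.77881 ^ (k + 1) := by
      calc (t * exp (-t / 2)) ^ 3 ≤ ((((k : ℝ) + 1) / 6) * exp (-(((k : ℝ) + 1) / 6) / 2)) ^ 3 :=
            pow_le_pow_left₀ (by positivity) a1 3
        _ = (((k : ℝ) + 1) / 6) ^ 3 * exp (-(((k : ℝ) + 1) / 6) / 2) ^ 3 := mul_pow _ _ _
        _ ≤ _ := by gcongr
    gcongr
  have last : (11 : ℝ) / 6 ≤ t → (t * exp (-t / 2)) ^ 3 * (1 + 4.1 * exp (-3 * t)) ^ 2 ≤
      8 * 0.77881 ^ 12 * (1 + 4.1 * 0.77881 ^ 22) ^ 2 := by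
    intro h1
    have a1 := max_aux t
    have a2 : exp (-1 : ℝ) ^ 3 ≤ 0.77881 ^ 12 := by
      have := hpow 12
      rw [← exp_nat_mul]
      refine le_trans (le_of_eq ?_) this
      norm_num
    have a3 : exp (-3 * t) ≤ 0.77881 ^ 22 := by
      refine le_trans ?_ (hpow 22)
      apply exp_le_exp.2
      push_cast
      linarith
    have a4 : (t * exp (-t / 2)) ^ 3 ≤ 8 * 0.77881 ^ 12 := by
      calc (t * exp (-t / 2)) ^ 3 ≤ (2 * exp (-1)) ^ 3 := pow_le_pow_left₀ (by positivity) a1 3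
        _ = 8 * exp (-1 : ℝ) ^ 3 := by rw [mul_pow]; norm_num
        _ ≤ _ := by gcongr
    gcongr
  have main : (t * exp (-t / 2)) ^ 3 * (1 + 4.1 * exp (-3 * t)) ^ 2 ≤ 0.4225 := by
    rcases le_or_gt (11 / 6) t with h | h
    · exact (last h).trans (by norm_num)
    rcases le_or_gt (10 / 6) t with h' | h'
    · refine (step 10 (by norm_num) (by norm_num; linarith) (by norm_num; linarith)).trans ?_
      norm_num
    rcases le_or_gt (9 / 6) t with h'' | h''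
    · refine (step 9 (by norm_num) (by norm_num; linarith) (by norm_num; linarith)).trans ?_
      norm_num
    rcases le_or_gt (8 / 6) t with h3 | h3
    · refine (step 8 (by norm_num) (by norm_num; linarith) (by norm_num; linarith)).trans ?_
      norm_num
    rcases le_or_gt (7 / 6) t with h4 | h4
    · refine (step 7 (by norm_num) (by norm_num; linarith) (by norm_num; linarith)).trans ?_
      norm_num
    · refine (step 6 (by norm_num) (by norm_num; linarith) (by norm_num; linarith)).trans ?_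
      norm_num
  rw [← hsq] at main
  have : (0.4225 : ℝ) = 0.65 ^ 2 := by norm_num
  rw [this] at main
  exact (pow_le_pow_iff_left₀ hF0 (by norm_num) (by norm_num)).1 main

/-- The numerical bound. -/
theorem num_bound {t : ℝ} (ht : 0 < t) (N : ℕ) :
    t ^ (3 / 2 : ℝ) * ∑ k ∈ Finset.range N, ((k : ℝ) + 1) ^ 2 *
      exp (-t * (((k : ℝ) + 1) ^ 2 - 1 / 4)) ≤ 0.65 := by
  rcases le_or_gt t 1 with h | h
  · exact small_bound ht h N
  · refine le_trans ?_ (large_fun h.le)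
    gcongr
    exact large_sum h.le N

end Pool.Agent.Lib.MP_4a15bf_mp
end

section
set_option autoImplicit false

namespace Pool.Agent.HeatSphere

open MeasureTheory Metric Set
open scoped ENNReal InnerProductSpace

variable {n : ℕ}

lemma inner_toLp_fn {u v : Sph n → ℝ} (hu : SqInt u) (hv : SqInt v) :
    ⟪(MemLp.toLp u hu : L2S n), MemLp.toLp v hv⟫_ℝ = ip u v := by
  rw [inner_L2]
  refine integral_congr_ae ?_
  filter_upwards [hu.coeFn_toLp, hv.coeFn_toLp] with x h1 h2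
  rw [h1, h2]

lemma ip_coe (u v : L2S n) : ip (u : Sph n → ℝ) v = ⟪u, v⟫_ℝ := (inner_L2 u v).symm

lemma sqInt_coe (u : L2S n) : SqInt (u : Sph n → ℝ) := Lp.memLp u

lemma isEigen_toLp {W : Sph n → ℝ} {lam : ℝ} {u : Sph n → ℝ} (h : Eigenfn W lam u) :
    IsEigen W lam (MemLp.toLp u h.1 : L2S n) := by
  intro φ hφ
  have h1 : ∀ g : Sph n → ℝ, ∫ x, (MemLp.toLp u h.1 : L2S n) x * g x ∂(area n) = ip u g := by
    intro g
    refine integral_congr_ae ?_
    filter_upwards [(MemLp.coeFn_toLp h.1)] with x hx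
    rw [hx]
  rw [h1, h1]
  exact h.2 φ hφ

lemma eigenfn_coe {W : Sph n → ℝ} {lam : ℝ} {u : L2S n} (h : IsEigen W lam u) :
    Eigenfn W lam (u : Sph n → ℝ) := ⟨sqInt_coe u, fun φ hφ => h φ hφ⟩

lemma orthoN_coe {ι : Type} {u : ι → L2S n} (h : Orthonormal ℝ u) :
    OrthoN (fun i => (u i : Sph n → ℝ)) := by
  refine ⟨fun i => ?_, fun i j hij => ?_⟩
  · rw [ip_coe, real_inner_self_eq_norm_sq, h.1 i]; norm_num
  · rw [ip_coe]; exact h.2 hij

lemma orthonormal_toLp {ι : Type} {u : ι → Sph n → ℝ} (hu : ∀ i, SqInt (u i)) (h : OrthoN u) :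
    Orthonormal ℝ (fun i => (MemLp.toLp (u i) (hu i) : L2S n)) := by
  refine ⟨fun i => ?_, fun i j hij => ?_⟩
  · have h1 := real_inner_self_eq_norm_sq (MemLp.toLp (u i) (hu i) : L2S n)
    rw [inner_toLp_fn, h.1 i] at h1
    have h2 : (‖(MemLp.toLp (u i) (hu i) : L2S n)‖ - 1) *
      (‖(MemLp.toLp (u i) (hu i) : L2S n)‖ + 1) = 0 := by ring_nf; rw [← h1]; ring
    rcases mul_eq_zero.1 h2 with h3 | h3
    · linarith
    · have := norm_nonneg (MemLp.toLp (u i) (hu i) : L2S n)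
      linarith
  · show ⟪(MemLp.toLp (u i) (hu i) : L2S n), MemLp.toLp (u j) (hu j)⟫_ℝ = 0
    rw [inner_toLp_fn]
    exact h.2 i j hij

lemma heatTr_eq (W : Sph n → ℝ) (t : ℝ) : heatTr W t = heatTrace W t := by
  unfold heatTr heatTrace
  apply le_antisymm
  · refine iSup_le fun m => iSup_le fun lam => iSup_le fun u => iSup_le fun hu =>
      iSup_le fun he => ?_
    refine le_iSup_of_le m (le_iSup_of_le lam ?_)
    refine le_iSup_of_le (fun i => (MemLp.toLp (u i) (he i).1 : L2S n)) ?_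
    exact le_iSup_of_le (orthonormal_toLp (fun i => (he i).1) hu)
      (le_iSup_of_le (fun i => isEigen_toLp (he i)) le_rfl)
  · refine iSup_le fun m => iSup_le fun lam => iSup_le fun u => iSup_le fun hu =>
      iSup_le fun he => ?_
    refine le_iSup_of_le m (le_iSup_of_le lam ?_)
    refine le_iSup_of_le (fun i => (u i : Sph n → ℝ)) ?_
    exact le_iSup_of_le (orthoN_coe hu) (le_iSup_of_le (fun i => eigenfn_coe (he i)) le_rfl)

lemma bestCst_eq (W : Sph n → ℝ) : bestCst W = bestC W := by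
  unfold bestCst bestC
  simp_rw [heatTr_eq]

/-- Existence of an eigenbasis. -/
theorem exists_eigenbasis_fn {W : Sph 3 → ℝ} (hW : IsSmooth W) (hpos : ∀ x, 0 < W x) :
    ∃ (ι : Type) (u : ι → Sph 3 → ℝ) (lam : ι → ℝ), Eigenbasis W u lam := by
  obtain ⟨ι, b, lam, hb⟩ := exists_basis hW hpos
  refine ⟨ι, fun i => (b i : Sph 3 → ℝ), lam, fun i => eigenfn_coe (hb i),
    orthoN_coe b.orthonormal, fun f hf h => ?_⟩
  have h1 : (MemLp.toLp f hf : L2S 3) = 0 := by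
    have h2 : ∀ i, ⟪b i, (MemLp.toLp f hf : L2S 3)⟫_ℝ = 0 := by
      intro i
      rw [real_inner_comm, inner_L2]
      have h3 := h i
      rw [← h3]
      refine integral_congr_ae ?_
      filter_upwards [hf.coeFn_toLp] with x hx
      rw [hx]
    have h4 := b.hasSum_inner_mul_inner (MemLp.toLp f hf : L2S 3) (MemLp.toLp f hf : L2S 3)
    have h5 : (fun i => ⟪(MemLp.toLp f hf : L2S 3), b i⟫_ℝ * ⟪b i, (MemLp.toLp f hf : L2S 3)⟫_ℝ)
        = fun _ => 0 := by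
      funext i; rw [h2 i, mul_zero]
    rw [h5] at h4
    exact inner_self_eq_zero.1 (h4.unique hasSum_zero)
  have h6 := hf.coeFn_toLp
  rw [h1] at h6
  filter_upwards [h6, Lp.coeFn_zero ℝ 2 (area 3)] with x h7 h8
  rw [← h7, h8]
  rfl

/-- The heat trace is the sum over any eigenbasis. -/
theorem heatTr_eq_tsum {W : Sph 3 → ℝ} (hW : IsSmooth W) (hpos : ∀ x, 0 < W x) {ι : Type}
    {u : ι → Sph 3 → ℝ} {lam : ι → ℝ} (h : Eigenbasis W u lam) (t : ℝ) :
    heatTr W t = ∑' i, ENNReal.ofReal (Real.exp (-t * lam i)) := by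
  have hu : ∀ i, SqInt (u i) := fun i => (h.eigen i).1
  have hon := orthonormal_toLp hu h.ortho
  have hbot : (Submodule.span ℝ (Set.range
      (fun i => (MemLp.toLp (u i) (hu i) : L2S 3))))ᗮ = ⊥ := by
    rw [eq_bot_iff]
    intro f hf
    rw [Submodule.mem_bot]
    have h1 : ∀ i, ip (f : Sph 3 → ℝ) (u i) = 0 := by
      intro i
      have h2 : ⟪(MemLp.toLp (u i) (hu i) : L2S 3), f⟫_ℝ = 0 :=
        (Submodule.mem_orthogonal _ _).1 hf _ (Submodule.subset_span ⟨i, rfl⟩)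
      rw [real_inner_comm, inner_L2] at h2
      rw [← h2]
      refine integral_congr_ae ?_
      filter_upwards [(hu i).coeFn_toLp] with x hx
      rw [hx]
    have h3 := h.complete f (sqInt_coe f) h1
    apply L2_ext
    filter_upwards [h3, Lp.coeFn_zero ℝ 2 (area 3)] with x h4 h5
    rw [h4, h5]
    rfl
  rw [heatTr_eq]
  refine heatTrace_eq hW hpos (HilbertBasis.mkOfOrthogonalEqBot hon hbot) lam (fun i => ?_) t
  rw [HilbertBasis.coe_mkOfOrthogonalEqBot]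
  exact isEigen_toLp (h.eigen i)

end Pool.Agent.HeatSphere
end
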