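import Pool.Agent.Lib.MP_4a15bf_mp.Poly

set_option autoImplicit false

namespace Pool.Agent.HeatSphere

open MeasureTheory Metric Set MvPolynomial
open scoped ENNReal Manifold ContDiff Laplacian Pointwise InnerProductSpace

variable {n : ℕ}

/-- `L²` of the sphere. -/
noncomputable abbrev L2S (n : ℕ) := Lp ℝ 2 (area n)

/-- Continuous functions as elements of `L²`. -/
noncomputable def toL2 : C(Sph n, ℝ) →L[ℝ] L2S n := ContinuousMap.toLp 2 (area n) ℝ

lemma coeFn_toL2 (f : C(Sph n, ℝ)) : (toL2 f : Sph n → ℝ) =ᵐ[area n] f :=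
  ContinuousMap.coeFn_toLp (area n) f

lemma inner_toL2 (f g : C(Sph n, ℝ)) : ⟪toL2 f, toL2 g⟫_ℝ = ∫ x, f x * g x ∂(area n) := by
  unfold toL2
  rw [ContinuousMap.inner_toLp]
  refine integral_congr_ae (Filter.Eventually.of_forall fun x => ?_)
  simp [mul_comm]

lemma inner_L2_toL2 (u : L2S n) (g : C(Sph n, ℝ)) :
    ⟪u, toL2 g⟫_ℝ = ∫ x, u x * g x ∂(area n) := by
  rw [MeasureTheory.L2.inner_def]
  refine integral_congr_ae ?_
  filter_upwards [coeFn_toL2 g] with x hx
  rw [hx]
  simp [mul_comm]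

lemma inner_L2 (u v : L2S n) : ⟪u, v⟫_ℝ = ∫ x, u x * v x ∂(area n) := by
  rw [MeasureTheory.L2.inner_def]
  refine integral_congr_ae (Filter.Eventually.of_forall fun x => ?_)
  simp [mul_comm]

instance : (area n).IsOpenPosMeasure := by unfold area; infer_instance

lemma toL2_injective : Function.Injective (toL2 : C(Sph n, ℝ) → L2S n) :=
  ContinuousMap.toLp_injective (area n)

/-- Smooth functions are continuous. -/
lemma IsSmooth.continuous {u : Sph n → ℝ} (hu : IsSmooth u) : Continuous u :=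
  ContMDiff.continuous hu

/-- A polynomial as a continuous function on the sphere. -/
noncomputable def evC : MP n →ₐ[ℝ] C(Sph n, ℝ) where
  toFun p := ⟨fun x => ev p x, (contDiff_ev p).continuous.comp continuous_subtype_val⟩
  map_one' := by ext x; simp
  map_mul' p q := by ext x; simp
  map_zero' := by ext x; simp
  map_add' p q := by ext x; simp
  commutes' r := by
    ext x
    show ev (algebraMap ℝ (MP n) r) x = _
    rw [MvPolynomial.algebraMap_eq]; simp

@[simp] lemma evC_apply (p : MP n) (x : Sph n) : evC p x = ev p x := rfl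

/-- A polynomial as an element of `L²`. -/
noncomputable def Phi : MP n →ₗ[ℝ] L2S n :=
  (toL2 : C(Sph n, ℝ) →L[ℝ] L2S n).toLinearMap ∘ₗ (evC : MP n →ₐ[ℝ] C(Sph n, ℝ)).toLinearMap

lemma Phi_apply (p : MP n) : Phi p = toL2 (evC p) := rfl

lemma inner_Phi (p q : MP n) : ⟪Phi p, Phi q⟫_ℝ = ∫ x : Sph n, ev p x * ev q x ∂(area n) := by
  rw [Phi_apply, Phi_apply, inner_toL2]; rfl

lemma inner_Phi_LP (p q : MP n) : ⟪Phi (LP p), Phi q⟫_ℝ = ⟪Phi p, Phi (LP q)⟫_ℝ := by
  rw [inner_Phi, inner_Phi]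
  have h := integral_lapB_comm (isSmooth_restrict (sm_ev p)) (isSmooth_restrict (sm_ev q))
  simp_rw [lapB_ev] at h
  exact h.symm

/-- Restrictions of polynomials of degree `< k`. -/
noncomputable def VV (n k : ℕ) : Submodule ℝ (L2S n) := (DD n k).map Phi

instance (k : ℕ) : FiniteDimensional ℝ (VV n k) :=
  Module.Finite.iff_fg.2 ((DD_fg k).map Phi)

lemma VV_mono {j k : ℕ} (h : j ≤ k) : VV n j ≤ VV n k := Submodule.map_mono (DD_mono h)

/-- Spherical harmonics of degree `k`. -/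
noncomputable def HH (n k : ℕ) : Submodule ℝ (L2S n) := (VV n k)ᗮ ⊓ VV n (k + 1)

lemma HH_le (k : ℕ) : HH n k ≤ VV n (k + 1) := inf_le_right

instance (k : ℕ) : FiniteDimensional ℝ (HH n k) :=
  Submodule.finiteDimensional_of_le (HH_le k)

lemma VV_succ (k : ℕ) : VV n (k + 1) = VV n k ⊔ HH n k :=
  (Submodule.sup_orthogonal_inf_of_hasOrthogonalProjection (VV_mono (Nat.le_succ k))).symm

lemma HH_eigen (k : ℕ) {h : L2S n} (hh : h ∈ HH n k) :
    ∃ p : MP n, Phi p = h ∧ ∀ x : Sph n, ev (LP p) x = -mu n k * ev p x := by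
  obtain ⟨h1, h2⟩ := hh
  obtain ⟨p, hp, rfl⟩ := h2
  refine ⟨p, rfl, ?_⟩
  have h3 : Phi (LP p + mu n k • p) ∈ VV n k := Submodule.mem_map_of_mem (LP_add_mu_mem hp)
  have h4 : Phi (LP p + mu n k • p) ∈ (VV n k)ᗮ := by
    rw [Submodule.mem_orthogonal]
    rintro _ ⟨q, hq, rfl⟩
    rw [real_inner_comm, map_add, inner_add_left, inner_Phi_LP, map_smul, inner_smul_left]
    have e1 : ⟪Phi p, Phi (LP q)⟫_ℝ = 0 := by
      rw [real_inner_comm]
      exact (Submodule.mem_orthogonal _ _).1 h1 _ (Submodule.mem_map_of_mem (LP_mem_DD hq))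
    have e2 : ⟪Phi p, Phi q⟫_ℝ = 0 := by
      rw [real_inner_comm]
      exact (Submodule.mem_orthogonal _ _).1 h1 _ (Submodule.mem_map_of_mem hq)
    rw [e1, e2]; simp
  have h5 : Phi (LP p + mu n k • p) = 0 := by
    have := Submodule.inner_left_of_mem_orthogonal h3 h4
    rwa [inner_self_eq_zero] at this
  have h6 : evC (LP p + mu n k • p) = (0 : C(Sph n, ℝ)) := by
    apply toL2_injective
    rw [map_zero]; exact h5
  intro x
  have h7 := congrArg (fun f : C(Sph n, ℝ) => f x) h6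
  simp only [evC_apply, ev_add, ev_smul, ContinuousMap.zero_apply] at h7
  linarith

lemma HH_orthogonal {j k : ℕ} (h : j ≠ k) {u v : L2S n} (hu : u ∈ HH n j) (hv : v ∈ HH n k) :
    ⟪u, v⟫_ℝ = 0 := by
  rcases lt_or_gt_of_ne h with h | h
  · exact (Submodule.mem_orthogonal _ _).1 hv.1 u (VV_mono h hu.2)
  · rw [real_inner_comm]
    exact (Submodule.mem_orthogonal _ _).1 hu.1 v (VV_mono h hv.2)

lemma VV_le_iSup_HH (k : ℕ) : VV n k ≤ ⨆ j, HH n j := by
  induction k with
  | zero => unfold VV; rw [DD_zero]; simp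
  | succ k ih => rw [VV_succ]; exact sup_le ih (le_iSup (HH n) k)

lemma iSup_VV : ⨆ k, VV n k = LinearMap.range (Phi : MP n →ₗ[ℝ] L2S n) := by
  unfold VV
  rw [← Submodule.map_iSup, iSup_DD, Submodule.map_top]

lemma range_Phi_dense :
    (LinearMap.range (Phi : MP n →ₗ[ℝ] L2S n)).topologicalClosure = ⊤ := by
  have h1 : (LinearMap.range (evC : MP n →ₐ[ℝ] C(Sph n, ℝ)).toLinearMap).topologicalClosure
      = ⊤ := by
    have h2 := ContinuousMap.subalgebra_topologicalClosure_eq_top_of_separatesPoints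
      (evC : MP n →ₐ[ℝ] C(Sph n, ℝ)).range (by
        intro x y hxy
        obtain ⟨i, hi⟩ : ∃ i, (x : Amb n) i ≠ (y : Amb n) i := by
          by_contra hcon
          push Not at hcon
          exact hxy (Subtype.ext (by ext i; exact hcon i))
        refine ⟨_, ⟨evC (X i), ⟨X i, rfl⟩, rfl⟩, ?_⟩
        simpa using hi)
    apply SetLike.ext'
    have h3 := congrArg (fun A : Subalgebra ℝ C(Sph n, ℝ) => (A : Set C(Sph n, ℝ))) h2
    simp only [Subalgebra.topologicalClosure_coe, AlgHom.coe_range, Algebra.coe_top] at h3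
    rw [Submodule.topologicalClosure_coe]
    exact h3
  have h4 := (ContinuousMap.toLp_denseRange ℝ (area n) ℝ (p := 2)
    (by norm_num)).topologicalClosure_map_submodule (f := (toL2 : C(Sph n, ℝ) →L[ℝ] L2S n)) h1
  convert h4 using 2
  rw [← LinearMap.range_comp]
  rfl

lemma iSup_HH_dense : (⨆ k, HH n k).topologicalClosure = ⊤ := by
  rw [eq_top_iff, ← range_Phi_dense, ← iSup_VV]
  exact Submodule.topologicalClosure_mono (iSup_le VV_le_iSup_HH)

end Pool.Agent.HeatSphere
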