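import Pool.Agent.Lib.MP_4a15bf_mp.Rot

section
set_option autoImplicit false

namespace Pool.Agent.HeatSphere

open MeasureTheory Metric Set
open scoped ENNReal Manifold ContDiff Laplacian Pointwise

variable {n : ℕ}

/-- Smoothness away from the origin. -/
def Sm (U : Amb n → ℝ) : Prop := ContDiffOn ℝ ∞ U {0}ᶜ

lemma Sm.diffAt {U : Amb n → ℝ} (hU : Sm U) {x : Amb n} (hx : x ≠ 0) : DifferentiableAt ℝ U x :=
  ((hU.differentiableOn (by norm_num)) x hx).differentiableAt (isOpen_compl0.mem_nhds hx)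

lemma Sm.contDiffAt {U : Amb n → ℝ} (hU : Sm U) {x : Amb n} (hx : x ≠ 0) : ContDiffAt ℝ ∞ U x :=
  (hU x hx).contDiffAt (isOpen_compl0.mem_nhds hx)

lemma Sm.fderiv {U : Amb n → ℝ} (hU : Sm U) : ContDiffOn ℝ ∞ (fderiv ℝ U) ({0}ᶜ : Set (Amb n)) :=
  hU.fderiv_of_isOpen isOpen_compl0 (by norm_num)

lemma Sm.LL {U : Amb n → ℝ} (hU : Sm U) (i j : Fin (n + 1)) : Sm (LL i j U) :=
  hU.fderiv.clm_apply (rot i j).contDiff.contDiffOn

lemma Sm.mul {U V : Amb n → ℝ} (hU : Sm U) (hV : Sm V) : Sm (fun x => U x * V x) :=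
  ContDiffOn.mul hU hV

lemma Sm.of1 {U : Amb n → ℝ} (hU : Sm U) : ContDiffOn ℝ 1 U {0}ᶜ := hU.of_le (by norm_num)

lemma LL_mul {U V : Amb n → ℝ} (hU : Sm U) (hV : Sm V) (i j : Fin (n + 1)) {x : Amb n}
    (hx : x ≠ 0) : LL i j (fun x => U x * V x) x = LL i j U x * V x + U x * LL i j V x := by
  unfold LL
  have h : HasFDerivAt (fun x => U x * V x) _ x :=
    (hU.diffAt hx).hasFDerivAt.mul (hV.diffAt hx).hasFDerivAt
  rw [h.fderiv]
  simp
  ring

lemma Sm.continuous_sph {U : Amb n → ℝ} (hU : Sm U) : Continuous (fun x : Sph n => U x) :=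
  hU.continuousOn.comp_continuous continuous_subtype_val (fun x => sph_ne_zero x)

theorem integral_mul_LL {U V : Amb n → ℝ} (hU : Sm U) (hV : Sm V) (i j : Fin (n + 1)) :
    ∫ x : Sph n, U x * LL i j V x ∂(area n) = - ∫ x : Sph n, LL i j U x * V x ∂(area n) := by
  have h := integral_LL_eq_zero (hU.mul hV).of1 i j
  have h2 : ∀ x : Sph n, LL i j (fun x => U x * V x) x = LL i j U x * V x + U x * LL i j V x :=
    fun x => LL_mul hU hV i j (sph_ne_zero x)
  simp_rw [h2] at h
  rw [integral_add (integral_continuous_bound ((hU.LL i j).mul hV).continuous_sph)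
    (integral_continuous_bound (hU.mul (hV.LL i j)).continuous_sph)] at h
  linarith

theorem integral_mul_LL_LL_comm {U V : Amb n → ℝ} (hU : Sm U) (hV : Sm V) (i j : Fin (n + 1)) :
    ∫ x : Sph n, U x * LL i j (LL i j V) x ∂(area n) =
      ∫ x : Sph n, LL i j (LL i j U) x * V x ∂(area n) := by
  rw [integral_mul_LL hU (hV.LL i j), integral_mul_LL (hU.LL i j) hV, neg_neg]

/-- The second derivative along a rotation field. -/
lemma LL_LL_apply {U : Amb n → ℝ} (hU : Sm U) (i j : Fin (n + 1)) {x : Amb n} (hx : x ≠ 0) :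
    LL i j (LL i j U) x = fderiv ℝ (fderiv ℝ U) x (rot i j x) (rot i j x)
      + fderiv ℝ U x (rot i j (rot i j x)) := by
  have h1 : HasFDerivAt (fderiv ℝ U) (fderiv ℝ (fderiv ℝ U) x) x :=
    ((hU.fderiv.differentiableOn (by norm_num) x hx).differentiableAt
      (isOpen_compl0.mem_nhds hx)).hasFDerivAt
  have h2 := h1.clm_apply (rot i j).hasFDerivAt (x := x)
  have h3 : fderiv ℝ (LL i j U) x = _ := h2.fderiv
  show fderiv ℝ (LL i j U) x (rot i j x) = _
  rw [h3]
  simp
  ring


/-- The standard basis vectors. -/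
noncomputable abbrev bv (i : Fin (n + 1)) : Amb n := EuclideanSpace.single i (1 : ℝ)

lemma sum_bv (x : Amb n) : x = ∑ i, x i • bv i := by
  have := (EuclideanSpace.basisFun (Fin (n + 1)) ℝ).sum_repr x
  simpa using this.symm

lemma sq_norm_eq (x : Amb n) : ‖x‖ ^ 2 = ∑ i, x i ^ 2 := by
  rw [EuclideanSpace.norm_sq_eq]; simp

lemma bilin_expand (B : Amb n →L[ℝ] Amb n →L[ℝ] ℝ) (x : Amb n) :
    B x x = ∑ i, ∑ j, x i * x j * B (bv i) (bv j) := by
  conv_lhs => rw [sum_bv x]
  simp only [map_sum, map_smul, _root_.sum_apply, smul_apply, smul_eq_mul,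
    Finset.mul_sum]
  rw [Finset.sum_comm]
  refine Finset.sum_congr rfl fun i _ => Finset.sum_congr rfl fun j _ => ?_
  ring

lemma sum_rot_bilin (B : Amb n →L[ℝ] Amb n →L[ℝ] ℝ) (x : Amb n) :
    ∑ i, ∑ j, B (rot i j x) (rot i j x) = 2 * (‖x‖ ^ 2 * (∑ i, B (bv i) (bv i)) - B x x) := by
  have h : ∀ i j : Fin (n + 1), B (rot i j x) (rot i j x) =
      x i ^ 2 * B (bv j) (bv j) + x j ^ 2 * B (bv i) (bv i) - x i * x j * B (bv i) (bv j)
        - x j * x i * B (bv j) (bv i) := by
    intro i j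
    rw [rot_apply]
    simp only [map_sub, map_smul, sub_apply, smul_apply, smul_eq_mul]
    ring
  simp_rw [h, Finset.sum_sub_distrib, Finset.sum_add_distrib]
  have h2 : ∑ i, ∑ j, x j * x i * B (bv j) (bv i) = B x x := by
    rw [Finset.sum_comm, ← bilin_expand]
  rw [h2, ← bilin_expand]
  simp_rw [← Finset.mul_sum, ← Finset.sum_mul]
  rw [← sq_norm_eq, ← Finset.mul_sum]
  ring

lemma rot_rot (i j : Fin (n + 1)) (x : Amb n) :
    rot i j (rot i j x) = (if i = j then x i • bv j + x j • bv i else 0) - x i • bv i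
      - x j • bv j := by
  rw [rot_apply i j x]
  simp only [map_sub, map_smul, rot_apply]
  by_cases h : i = j
  · subst h; simp
  · simp [h, Ne.symm h]

lemma sum_rot_rot (x : Amb n) :
    ∑ i, ∑ j, rot i j (rot i j x) = (-(2 * n : ℝ)) • x := by
  simp_rw [rot_rot]
  simp only [Finset.sum_sub_distrib, Finset.sum_ite_eq, Finset.mem_univ, if_true]
  rw [Finset.sum_add_distrib]
  simp only [Finset.sum_const, Finset.card_univ, Fintype.card_fin]
  have h1 : ∑ i, (n + 1) • x i • bv i = ((n + 1 : ℕ) : ℝ) • x := by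
    rw [← Finset.smul_sum, ← sum_bv, ← Nat.cast_smul_eq_nsmul ℝ]
  rw [h1, ← sum_bv x]
  push_cast
  module

lemma laplacian_eq_sum (U : Amb n → ℝ) (x : Amb n) :
    (Δ U) x = ∑ i, fderiv ℝ (fderiv ℝ U) x (bv i) (bv i) := by
  have h := InnerProductSpace.laplacian_eq_iteratedFDeriv_orthonormalBasis U
    (EuclideanSpace.basisFun (Fin (n + 1)) ℝ)
  rw [h]
  refine Finset.sum_congr rfl fun i _ => ?_
  rw [iteratedFDeriv_two_apply]
  simp

/-- The sum of the squares of the rotation derivatives. -/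
theorem sum_LL_LL {U : Amb n → ℝ} (hU : Sm U) {x : Amb n} (hx : x ≠ 0) :
    ∑ i, ∑ j, LL i j (LL i j U) x =
      2 * (‖x‖ ^ 2 * (Δ U) x - fderiv ℝ (fderiv ℝ U) x x x - n * fderiv ℝ U x x) := by
  simp_rw [LL_LL_apply hU _ _ hx, Finset.sum_add_distrib]
  rw [sum_rot_bilin, laplacian_eq_sum]
  have : ∑ i, ∑ j, fderiv ℝ U x (rot i j (rot i j x)) = fderiv ℝ U x ((-(2 * n : ℝ)) • x) := by
    rw [← sum_rot_rot]; simp only [map_sum]
  rw [this, map_smul, smul_eq_mul]
  ring

end Pool.Agent.HeatSphere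
end

section
set_option autoImplicit false

namespace Pool.Agent.HeatSphere

open MeasureTheory Metric Set
open scoped ENNReal Manifold ContDiff Laplacian Pointwise

variable {n : ℕ}

lemma isSmooth_restrict {U : Amb n → ℝ} (hU : Sm U) : IsSmooth (fun x : Sph n => U x) := by
  intro x
  have h1 : ContMDiffAt 𝓘(ℝ, Amb n) 𝓘(ℝ, ℝ) ∞ U (x : Amb n) :=
    (hU.contDiffAt (sph_ne_zero x)).contMDiffAt
  have h2 : ContMDiffAt (𝓡 n) 𝓘(ℝ, Amb n) ∞ (fun y : Sph n => (y : Amb n)) x :=
    (contMDiff_coe_sphere (E := Amb n) (n := n) (m := ∞)).contMDiffAt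
  exact h1.comp x h2

lemma norm_normalize {y : Amb n} (hy : y ≠ 0) : ‖y‖⁻¹ • y ∈ sphere (0 : Amb n) 1 := by
  rw [mem_sphere_zero_iff_norm, norm_smul, norm_inv, norm_norm,
        inv_mul_cancel₀ (norm_ne_zero_iff.mpr hy)]

lemma radExt_of_ne {u : Sph n → ℝ} {y : Amb n} (hy : y ≠ 0) :
    radExt u y = u ⟨‖y‖⁻¹ • y, norm_normalize hy⟩ := by
  unfold radExt
  rw [dif_neg hy]

lemma radExt_coe (u : Sph n → ℝ) (x : Sph n) : radExt u (x : Amb n) = u x := by
  rw [radExt_of_ne (sph_ne_zero x)]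
  congr 1
  apply Subtype.ext
  have : ‖(x : Amb n)‖ = 1 := mem_sphere_zero_iff_norm.1 x.2
  simp [this]

lemma radExt_smul (u : Sph n → ℝ) {y : Amb n} (hy : y ≠ 0) {t : ℝ} (ht : 0 < t) :
    radExt u (t • y) = radExt u y := by
  have hty : t • y ≠ 0 := smul_ne_zero ht.ne' hy
  rw [radExt_of_ne hty, radExt_of_ne hy]
  congr 1
  apply Subtype.ext
  simp only [norm_smul, Real.norm_eq_abs, abs_of_pos ht, mul_inv, smul_smul]
  congr 1
  field_simp

lemma sm_radExt {u : Sph n → ℝ} (hu : IsSmooth u) : Sm (radExt u) := by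
  intro y hy
  let Ω : TopologicalSpace.Opens (Amb n) := ⟨{0}ᶜ, isOpen_compl0⟩
  let g : Ω → Amb n := fun y => ‖(y : Amb n)‖⁻¹ • (y : Amb n)
  have hg : ContMDiff 𝓘(ℝ, Amb n) 𝓘(ℝ, Amb n) ∞ g := by
    intro z
    have hz : (z : Amb n) ≠ 0 := z.2
    have h0 : ContDiffAt ℝ ∞ (fun y : Amb n => ‖y‖⁻¹ • y) (z : Amb n) :=
      ((contDiffAt_norm ℝ hz).inv (norm_ne_zero_iff.2 hz)).smul contDiffAt_id
    exact contMDiffAt_subtype_iff.2 h0.contMDiffAt
  have hg' : ∀ z, g z ∈ sphere (0 : Amb n) 1 := fun z => norm_normalize z.2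
  have h2 := ContMDiff.codRestrict_sphere (n := n) hg hg'
  have h3 := hu.comp h2
  have h4 : ContMDiffAt 𝓘(ℝ, Amb n) 𝓘(ℝ, ℝ) ∞ (radExt u) y := by
    refine (contMDiffAt_subtype_iff (U := Ω) (x := ⟨y, hy⟩)).1 ?_
    have h5 : (fun x : Ω => radExt u (x : Amb n)) = (u ∘ codRestrict g (sphere 0 1) hg') := by
      funext z
      rw [radExt_of_ne z.2]
      rfl
    rw [h5]
    exact h3.contMDiffAt
  exact (contMDiffAt_iff_contDiffAt.1 h4).contDiffWithinAt

/-- Functions that agree on the sphere have the same rotation derivatives there. -/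
lemma LL_congr {U V : Amb n → ℝ} (hU : Sm U) (hV : Sm V) (h : ∀ x : Sph n, U x = V x)
    (i j : Fin (n + 1)) (x : Sph n) : LL i j U x = LL i j V x := by
  have h1 := hasDerivAt_comp_flow (hU.differentiableOn (by norm_num)) i j x 0
  have h2 := hasDerivAt_comp_flow (hV.differentiableOn (by norm_num)) i j x 0
  have h3 : (fun θ => U (flow i j θ x)) = fun θ => V (flow i j θ x) := by
    funext θ; exact h (sphMap (flow i j θ) x)
  rw [h3] at h1
  have := h1.unique h2
  simpa [flow_zero] using this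

lemma fderiv_radExt_self {u : Sph n → ℝ} (hu : IsSmooth u) {y : Amb n} (hy : y ≠ 0) :
    fderiv ℝ (radExt u) y y = 0 := by
  have h1 := ((sm_radExt hu).diffAt hy).hasFDerivAt
  have h2 : HasDerivAt (fun t : ℝ => t • y) y 1 := by
    simpa using (hasDerivAt_id (1 : ℝ)).smul_const y
  have h1' : HasFDerivAt (radExt u) (fderiv ℝ (radExt u) y) ((1 : ℝ) • y) := by
    rw [one_smul]; exact h1
  have h3 := h1'.comp_hasDerivAt (1 : ℝ) h2
  have h4 : (radExt u ∘ fun t : ℝ => t • y) =ᶠ[nhds 1] fun _ => radExt u y := by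
    filter_upwards [lt_mem_nhds (zero_lt_one (α := ℝ))] with t ht
    exact radExt_smul u hy ht
  have h5 : HasDerivAt (radExt u ∘ fun t : ℝ => t • y) 0 1 :=
    (hasDerivAt_const (1 : ℝ) _).congr_of_eventuallyEq h4
  exact h3.unique h5

lemma fderiv2_radExt_self {u : Sph n → ℝ} (hu : IsSmooth u) {y : Amb n} (hy : y ≠ 0) :
    fderiv ℝ (fderiv ℝ (radExt u)) y y y = 0 := by
  have h1 : HasFDerivAt (fderiv ℝ (radExt u)) (fderiv ℝ (fderiv ℝ (radExt u)) y) y :=
    (((sm_radExt hu).fderiv.differentiableOn (by norm_num) y hy).differentiableAt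
      (isOpen_compl0.mem_nhds hy)).hasFDerivAt
  have h2 := h1.clm_apply (hasFDerivAt_id y)
  have h3 : (fun y => fderiv ℝ (radExt u) y (id y)) =ᶠ[nhds y] fun _ => 0 := by
    filter_upwards [isOpen_compl0.mem_nhds hy] with z hz
    exact fderiv_radExt_self hu hz
  have h4 : HasFDerivAt (fun y => fderiv ℝ (radExt u) y (id y)) (0 : Amb n →L[ℝ] ℝ) y :=
    (hasFDerivAt_const (0 : ℝ) y).congr_of_eventuallyEq h3
  have h5 := h2.unique h4
  have h6 := congrArg (fun L : Amb n →L[ℝ] ℝ => L y) h5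
  simp at h6
  have h7 := fderiv_radExt_self hu hy
  linarith

/-- The Laplace-Beltrami operator of a smooth function is half of the sum of the squares of the
rotation derivatives. -/
theorem lapB_eq_sum {u : Sph n → ℝ} (hu : IsSmooth u) (x : Sph n) :
    lapB u x = (1 / 2) * ∑ i, ∑ j, LL i j (LL i j (radExt u)) x := by
  rw [sum_LL_LL (sm_radExt hu) (sph_ne_zero x), fderiv_radExt_self hu (sph_ne_zero x),
    fderiv2_radExt_self hu (sph_ne_zero x)]
  have : ‖(x : Amb n)‖ = 1 := mem_sphere_zero_iff_norm.1 x.2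
  rw [this]
  unfold lapB
  ring

theorem lapB_eq_sum' {U : Amb n → ℝ} (hU : Sm U) (x : Sph n) :
    lapB (fun x : Sph n => U x) x = (1 / 2) * ∑ i, ∑ j, LL i j (LL i j U) x := by
  rw [lapB_eq_sum (isSmooth_restrict hU)]
  congr 1
  refine Finset.sum_congr rfl fun i _ => Finset.sum_congr rfl fun j _ => ?_
  have hs := sm_radExt (isSmooth_restrict hU)
  exact LL_congr (hs.LL i j) (hU.LL i j)
    (LL_congr hs hU (fun x => radExt_coe _ x) i j) i j x

/-- The Laplace-Beltrami operator of the restriction of an ambient smooth function. -/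
theorem lapB_restrict {U : Amb n → ℝ} (hU : Sm U) (x : Sph n) :
    lapB (fun x : Sph n => U x) x =
      (Δ U) x - fderiv ℝ (fderiv ℝ U) x x x - n * fderiv ℝ U x x := by
  rw [lapB_eq_sum' hU, sum_LL_LL hU (sph_ne_zero x)]
  have : ‖(x : Amb n)‖ = 1 := mem_sphere_zero_iff_norm.1 x.2
  rw [this]
  ring

/-- Symmetry of the Laplace-Beltrami operator on smooth functions. -/
theorem integral_lapB_comm {u v : Sph n → ℝ} (hu : IsSmooth u) (hv : IsSmooth v) :
    ∫ x, u x * lapB v x ∂(area n) = ∫ x, lapB u x * v x ∂(area n) := by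
  have hU := sm_radExt hu
  have hV := sm_radExt hv
  have h1 : ∀ x, u x * lapB v x =
      ∑ i, ∑ j, (1 / 2) * (radExt u x * LL i j (LL i j (radExt v)) x) := by
    intro x
    rw [lapB_eq_sum hv, radExt_coe, Finset.mul_sum, Finset.mul_sum]
    refine Finset.sum_congr rfl fun i _ => ?_
    rw [Finset.mul_sum, Finset.mul_sum]
    refine Finset.sum_congr rfl fun j _ => ?_
    ring
  have h2 : ∀ x, lapB u x * v x =
      ∑ i, ∑ j, (1 / 2) * (LL i j (LL i j (radExt u)) x * radExt v x) := by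
    intro x
    rw [lapB_eq_sum hu, radExt_coe, Finset.mul_sum, Finset.sum_mul]
    refine Finset.sum_congr rfl fun i _ => ?_
    rw [Finset.mul_sum, Finset.sum_mul]
    refine Finset.sum_congr rfl fun j _ => ?_
    ring
  simp_rw [h1, h2]
  rw [integral_finsetSum _ fun i _ => ?_, integral_finsetSum _ fun i _ => ?_]
  · refine Finset.sum_congr rfl fun i _ => ?_
    rw [integral_finsetSum _ fun j _ => ?_, integral_finsetSum _ fun j _ => ?_]
    · refine Finset.sum_congr rfl fun j _ => ?_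
      rw [integral_const_mul, integral_const_mul, integral_mul_LL_LL_comm hU hV]
    · exact (integral_continuous_bound (((hU.LL i j).LL i j).mul hV).continuous_sph).const_mul _
    · exact (integral_continuous_bound ((hU.mul ((hV.LL i j).LL i j))).continuous_sph).const_mul _
  · exact integrable_finsetSum _ fun j _ => 
      (integral_continuous_bound (((hU.LL i j).LL i j).mul hV).continuous_sph).const_mul _
  · exact integrable_finsetSum _ fun j _ => 
      (integral_continuous_bound ((hU.mul ((hV.LL i j).LL i j))).continuous_sph).const_mul _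

end Pool.Agent.HeatSphere
end

section
set_option autoImplicit false

namespace Pool.Agent.HeatSphere

open MeasureTheory Metric Set MvPolynomial
open scoped ENNReal Manifold ContDiff Laplacian Pointwise

variable {n : ℕ}

/-- Polynomials in the ambient coordinates. -/
abbrev MP (n : ℕ) := MvPolynomial (Fin (n + 1)) ℝ

/-- Evaluation of a polynomial. -/
noncomputable def ev (p : MP n) (x : Amb n) : ℝ := MvPolynomial.eval (fun i => x i) p

@[simp] lemma ev_add (p q : MP n) (x : Amb n) : ev (p + q) x = ev p x + ev q x := by simp [ev]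
@[simp] lemma ev_sub (p q : MP n) (x : Amb n) : ev (p - q) x = ev p x - ev q x := by simp [ev]
@[simp] lemma ev_mul (p q : MP n) (x : Amb n) : ev (p * q) x = ev p x * ev q x := by simp [ev]
@[simp] lemma ev_smul (c : ℝ) (p : MP n) (x : Amb n) : ev (c • p) x = c * ev p x := by
  simp [ev]
@[simp] lemma ev_C (c : ℝ) (x : Amb n) : ev (C c : MP n) x = c := by simp [ev]
@[simp] lemma ev_X (i : Fin (n + 1)) (x : Amb n) : ev (X i : MP n) x = x i := by simp [ev]
@[simp] lemma ev_zero (x : Amb n) : ev (0 : MP n) x = 0 := by simp [ev]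
@[simp] lemma ev_one (x : Amb n) : ev (1 : MP n) x = 1 := by simp [ev]
@[simp] lemma ev_sum {ι : Type*} (s : Finset ι) (p : ι → MP n) (x : Amb n) :
    ev (∑ i ∈ s, p i) x = ∑ i ∈ s, ev (p i) x := by simp [ev]

/-- The derivative of a polynomial. -/
noncomputable def dev (p : MP n) (x : Amb n) : Amb n →L[ℝ] ℝ :=
  ∑ i, ev (pderiv i p) x • (EuclideanSpace.proj i : Amb n →L[ℝ] ℝ)

lemma dev_apply (p : MP n) (x v : Amb n) : dev p x v = ∑ i, ev (pderiv i p) x * v i := by
  simp [dev]

lemma hasFDerivAt_ev (p : MP n) (x : Amb n) : HasFDerivAt (ev p) (dev p x) x := by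
  induction p using MvPolynomial.induction_on with
  | C a =>
    have h : ev (C a : MP n) = fun _ => a := by funext x; simp
    rw [h]
    have h2 : dev (C a : MP n) x = 0 := by ext v; simp [dev_apply]
    rw [h2]
    exact hasFDerivAt_const _ _
  | add p q hp hq =>
    have h : ev (p + q) = fun x => ev p x + ev q x := by funext x; simp
    rw [h]
    have h2 : dev (p + q) x = dev p x + dev q x := by
      ext v; simp [dev_apply, add_mul, Finset.sum_add_distrib]
    rw [h2]
    exact hp.add hq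
  | mul_X p i hp =>
    have h : ev (p * X i) = fun x => ev p x * x i := by funext x; simp
    rw [h]
    have h3 : HasFDerivAt (fun x : Amb n => x i) (EuclideanSpace.proj i : Amb n →L[ℝ] ℝ) x :=
      (EuclideanSpace.proj i : Amb n →L[ℝ] ℝ).hasFDerivAt
    have h4 := hp.mul h3
    have h2 : dev (p * X i) x = ev p x • (EuclideanSpace.proj i : Amb n →L[ℝ] ℝ)
        + x i • dev p x := by
      ext v
      simp only [dev_apply, add_apply, smul_apply, smul_eq_mul, pderiv_mul, pderiv_X, ev_add,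
        ev_mul, ev_X, add_mul, Finset.sum_add_distrib, Finset.mul_sum, PiLp.proj_apply]
      rw [add_comm]
      congr 1
      · rw [Finset.sum_eq_single i]
        · simp
        · intro j _ hj
          simp [Pi.single_apply, hj.symm]
        · simp
      · refine Finset.sum_congr rfl fun j _ => ?_
        ring
    rw [h2]
    exact h4

lemma fderiv_ev (p : MP n) : fderiv ℝ (ev p) = dev p := by
  funext x; exact (hasFDerivAt_ev p x).fderiv

lemma contDiff_ev (p : MP n) : ContDiff ℝ ∞ (ev p) := by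
  induction p using MvPolynomial.induction_on with
  | C a =>
    have h : ev (C a : MP n) = fun _ => a := by funext x; simp
    rw [h]; exact contDiff_const
  | add p q hp hq =>
    have h : ev (p + q) = fun x => ev p x + ev q x := by funext x; simp
    rw [h]; exact hp.add hq
  | mul_X p i hp =>
    have h : ev (p * X i) = fun x => ev p x * x i := by funext x; simp
    rw [h]; exact hp.mul (EuclideanSpace.proj i : Amb n →L[ℝ] ℝ).contDiff

lemma sm_ev (p : MP n) : Sm (ev p) := (contDiff_ev p).contDiffOn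

lemma fderiv2_ev (p : MP n) (x v w : Amb n) : fderiv ℝ (fderiv ℝ (ev p)) x v w =
    ∑ i, ∑ j, ev (pderiv j (pderiv i p)) x * v j * w i := by
  rw [fderiv_ev]
  have h : HasFDerivAt (dev p) (∑ i, (dev (pderiv i p) x).smulRight
      (EuclideanSpace.proj i : Amb n →L[ℝ] ℝ)) x := by
    unfold dev
    refine HasFDerivAt.fun_sum fun i _ => ?_
    exact HasFDerivAt.smul_const (hasFDerivAt_ev (pderiv i p) x)
      (EuclideanSpace.proj i : Amb n →L[ℝ] ℝ)
  rw [h.fderiv]
  simp only [_root_.sum_apply, ContinuousLinearMap.smulRight_apply, smul_apply, smul_eq_mul,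
    dev_apply, Finset.sum_mul, PiLp.proj_apply]

/-- The polynomial representing the Laplace-Beltrami operator of a polynomial. -/
noncomputable def LP (p : MP n) : MP n :=
  (∑ i, pderiv i (pderiv i p)) - (∑ i, X i * ∑ j, X j * pderiv j (pderiv i p))
    - (n : ℝ) • ∑ i, X i * pderiv i p

lemma LP_add (p q : MP n) : LP (p + q) = LP p + LP q := by
  simp only [LP, map_add, Finset.sum_add_distrib, mul_add, smul_add]
  ring

lemma LP_smul (c : ℝ) (p : MP n) : LP (c • p) = c • LP p := by
  simp only [LP, Derivation.map_smul, mul_smul_comm, ← Finset.smul_sum, smul_sub]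
  rw [smul_comm c (n : ℝ)]

lemma lapB_ev (p : MP n) (x : Sph n) : lapB (fun x : Sph n => ev p x) x = ev (LP p) x := by
  rw [lapB_restrict (sm_ev p), laplacian_eq_sum]
  simp only [fderiv2_ev]
  rw [fderiv_ev, dev_apply]
  simp only [LP, ev_sub, ev_sum, ev_mul, ev_X, ev_smul]
  congr 1
  · congr 1
    · refine Finset.sum_congr rfl fun i _ => ?_
      rw [Finset.sum_eq_single i, Finset.sum_eq_single i]
      · simp
      · intro j _ hj; simp [hj]
      · simp
      · intro j _ hj; simp [hj]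
      · simp
    · refine Finset.sum_congr rfl fun i _ => ?_
      rw [Finset.mul_sum]
      refine Finset.sum_congr rfl fun j _ => ?_
      ring
  · congr 1
    refine Finset.sum_congr rfl fun i _ => ?_
    ring

/-- The eigenvalue of `-lapB` on spherical harmonics of degree `k`. -/
noncomputable def mu (n k : ℕ) : ℝ := k * (k + n - 1)

lemma LP_homog {p : MP n} {k : ℕ} (hp : p.IsHomogeneous k) :
    LP p = (∑ i, pderiv i (pderiv i p)) - mu n k • p := by
  unfold LP
  have h1 : ∑ i, X i * pderiv i p = k • p := hp.sum_X_mul_pderiv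
  have h2 : ∑ i, X i * ∑ j, X j * pderiv j (pderiv i p) = ((k - 1) * k) • p := by
    have : ∀ i, ∑ j, X j * pderiv j (pderiv i p) = (k - 1) • pderiv i p := fun i =>
      hp.pderiv.sum_X_mul_pderiv
    simp_rw [this, mul_smul_comm]
    rw [← Finset.smul_sum, h1, smul_smul]
  rw [h1, h2, sub_sub]
  congr 1
  rw [← Nat.cast_smul_eq_nsmul ℝ, ← Nat.cast_smul_eq_nsmul ℝ, smul_smul, ← add_smul]
  congr 1
  unfold mu
  rcases k with _ | k
  · simp
  · push_cast [Nat.add_sub_cancel]
    ring

/-- Polynomials of degree less than `k`. -/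
noncomputable def DD (n k : ℕ) : Submodule ℝ (MP n) :=
  ⨆ j ∈ Finset.range k, homogeneousSubmodule (Fin (n + 1)) ℝ j

lemma DD_succ (k : ℕ) : DD n (k + 1) = homogeneousSubmodule (Fin (n + 1)) ℝ k ⊔ DD n k := by
  unfold DD
  rw [Finset.range_add_one, Finset.iSup_insert]

lemma DD_zero : DD n 0 = ⊥ := by simp [DD]

lemma DD_mono {j k : ℕ} (h : j ≤ k) : DD n j ≤ DD n k := by
  refine Nat.le_induction le_rfl (fun k _ ih => ih.trans ?_) k h
  rw [DD_succ]; exact le_sup_right

lemma homog_le_DD {j k : ℕ} (h : j < k) : homogeneousSubmodule (Fin (n + 1)) ℝ j ≤ DD n k := by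
  refine le_trans ?_ (DD_mono h)
  rw [DD_succ]; exact le_sup_left

lemma DD_fg (k : ℕ) : (DD n k).FG := by
  induction k with
  | zero => rw [DD_zero]; exact Submodule.fg_bot
  | succ k ih => rw [DD_succ]; exact (homogeneousSubmodule_fg (Fin (n + 1)) ℝ k).sup ih

lemma pderiv2_mem {p : MP n} {k : ℕ} (hp : p.IsHomogeneous k) :
    (∑ i, pderiv i (pderiv i p)) ∈ DD n k := by
  refine Submodule.sum_mem _ fun i _ => ?_
  rcases k with _ | k
  · rw [← totalDegree_zero_iff_isHomogeneous, totalDegree_eq_zero_iff_eq_C] at hp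
    rw [hp]; simp
  · have h := (hp.pderiv (i := i)).pderiv (i := i)
    exact homog_le_DD (j := k + 1 - 1 - 1) (by omega) h

lemma LP_mem_DD {p : MP n} {k : ℕ} (hp : p ∈ DD n k) : LP p ∈ DD n k := by
  induction k generalizing p with
  | zero =>
    rw [DD_zero, Submodule.mem_bot] at hp ⊢
    rw [hp]
    have := LP_smul (n := n) 0 0
    simpa using this
  | succ k ih =>
    rw [DD_succ, Submodule.mem_sup] at hp
    obtain ⟨a, ha, b, hb, rfl⟩ := hp
    rw [LP_add]
    refine Submodule.add_mem _ ?_ (DD_mono (Nat.le_succ k) (ih hb))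
    rw [LP_homog ha]
    refine Submodule.sub_mem _ (DD_mono (Nat.le_succ k) (pderiv2_mem ha)) ?_
    exact Submodule.smul_mem _ _ (homog_le_DD (Nat.lt_succ_self k) ha)

lemma LP_add_mu_mem {p : MP n} {k : ℕ} (hp : p ∈ DD n (k + 1)) :
    LP p + mu n k • p ∈ DD n k := by
  rw [DD_succ, Submodule.mem_sup] at hp
  obtain ⟨a, ha, b, hb, rfl⟩ := hp
  rw [LP_add, LP_homog ha]
  have : (∑ i, pderiv i (pderiv i a)) - mu n k • a + LP b + mu n k • (a + b) =
      (∑ i, pderiv i (pderiv i a)) + (LP b + mu n k • b) := by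
    rw [smul_add]; abel
  rw [this]
  exact Submodule.add_mem _ (pderiv2_mem ha)
    (Submodule.add_mem _ (LP_mem_DD hb) (Submodule.smul_mem _ _ hb))

lemma iSup_DD : ⨆ k, DD n k = ⊤ := by
  rw [eq_top_iff]
  intro p _
  rw [← sum_homogeneousComponent p]
  refine Submodule.sum_mem _ fun i hi => ?_
  exact Submodule.mem_iSup_of_mem (i + 1)
    (homog_le_DD (Nat.lt_succ_self i) (homogeneousComponent_isHomogeneous i p))

end Pool.Agent.HeatSphere
end
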