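import Pool.Agent.Lib.MP_4a15bf_mp.Defs

set_option autoImplicit false

namespace Pool.Agent.HeatSphere

open MeasureTheory Metric Set
open scoped ENNReal Manifold ContDiff Laplacian Pointwise

variable {n : ℕ}

/-! ### Auxiliary versions of the notions in terms of `Lp` -/

/-- `u ∈ L²(S^n)` satisfies `Y_W u = lam u`, tested against smooth functions (that is, `u` is
in the kernel of `(Y_W)* - lam`, where `Y_W` has the domain `C^∞(S^n)`, on which it is essentially
self-adjoint). -/
def IsEigen {n : ℕ} (W : Sph n → ℝ) (lam : ℝ) (u : Lp ℝ 2 (area n)) : Prop :=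
  ∀ φ : Sph n → ℝ, IsSmooth φ →
    ∫ x, u x * YW W φ x ∂(area n) = lam * ∫ x, u x * φ x ∂(area n)

/-- `Tr e^{-t Y_W}`: the sum of `e^{-t lam}` over all eigenvalues with multiplicity, i.e. the
supremum of `∑ e^{-t lam_i}` over all finite orthonormal systems of eigenfunctions. -/
noncomputable def heatTrace {n : ℕ} (W : Sph n → ℝ) (t : ℝ) : ℝ≥0∞ :=
  ⨆ (m : ℕ) (lam : Fin m → ℝ) (u : Fin m → Lp ℝ 2 (area n)) (_ : Orthonormal ℝ u)
    (_ : ∀ i, IsEigen W (lam i) (u i)), ∑ i, ENNReal.ofReal (Real.exp (-t * lam i))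

/-- `C(W) = sup_{t>0} t^{n/2} Tr e^{-t Y_W}`. -/
noncomputable def bestC {n : ℕ} (W : Sph n → ℝ) : ℝ≥0∞ :=
  ⨆ (t : ℝ) (_ : 0 < t), ENNReal.ofReal (t ^ (n / 2 : ℝ)) * heatTrace W t


/-- The action of a linear isometry on the sphere. -/
noncomputable def sphMap (e : Amb n ≃ₗᵢ[ℝ] Amb n) (x : Sph n) : Sph n :=
  ⟨e x, by rw [mem_sphere_zero_iff_norm, e.norm_map]; exact mem_sphere_zero_iff_norm.1 x.2⟩

@[simp] lemma coe_sphMap (e : Amb n ≃ₗᵢ[ℝ] Amb n) (x : Sph n) : (sphMap e x : Amb n) = e x := rfl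

lemma continuous_sphMap (e : Amb n ≃ₗᵢ[ℝ] Amb n) : Continuous (sphMap e) :=
  Continuous.subtype_mk (e.continuous.comp continuous_subtype_val) _

lemma map_sphMap_area (e : Amb n ≃ₗᵢ[ℝ] Amb n) :
    Measure.map (sphMap e) (area n) = area n := by
  ext s hs
  rw [Measure.map_apply (continuous_sphMap e).measurable hs]
  unfold area
  rw [Measure.toSphere_apply' _ hs,
    Measure.toSphere_apply' _ ((continuous_sphMap e).measurable hs)]
  congr 1
  have h1 : (Ioo (0 : ℝ) 1 • ((↑) '' (sphMap e ⁻¹' s)) : Set (Amb n)) =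
      e ⁻¹' (Ioo (0 : ℝ) 1 • ((↑) '' s)) := by
    ext x
    simp only [mem_preimage, mem_smul, mem_image, Subtype.exists, exists_and_right,
      exists_eq_right]
    constructor
    · rintro ⟨r, hr, y, ⟨hy, hys⟩, rfl⟩
      refine ⟨r, hr, e y, ⟨?_, hys⟩, ?_⟩
      · rw [mem_sphere_zero_iff_norm, e.norm_map]; exact mem_sphere_zero_iff_norm.1 hy
      · rw [map_smul]
    · rintro ⟨r, hr, y, ⟨hy, hys⟩, hxy⟩
      refine ⟨r, hr, e.symm y, ⟨?_, ?_⟩, ?_⟩
      · rw [mem_sphere_zero_iff_norm, e.symm.norm_map]; exact mem_sphere_zero_iff_norm.1 hy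
      · have : sphMap e ⟨e.symm y, by
            rw [mem_sphere_zero_iff_norm, e.symm.norm_map]
            exact mem_sphere_zero_iff_norm.1 hy⟩ = ⟨y, hy⟩ := by
          apply Subtype.ext; simp
        rw [this]; exact hys
      · rw [← map_smul, hxy, e.symm_apply_apply]
  rw [h1]
  exact (e.measurePreserving).measure_preimage_equiv (f := e.toMeasurableEquiv) _

lemma integral_sphMap (e : Amb n ≃ₗᵢ[ℝ] Amb n) (f : Sph n → ℝ) (hf : Continuous f) :
    ∫ x, f (sphMap e x) ∂(area n) = ∫ x, f x ∂(area n) := by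
  conv_rhs => rw [← map_sphMap_area e]
  rw [integral_map (continuous_sphMap e).measurable.aemeasurable
    hf.aestronglyMeasurable]

instance : IsFiniteMeasure (area n) := by unfold area; infer_instance

/-- `A_{ij} x = x_i e_j - x_j e_i`. -/
noncomputable def rot (i j : Fin (n + 1)) : Amb n →L[ℝ] Amb n :=
  (EuclideanSpace.proj i).smulRight (EuclideanSpace.single j (1 : ℝ)) -
    (EuclideanSpace.proj j).smulRight (EuclideanSpace.single i (1 : ℝ))

lemma rot_apply (i j : Fin (n + 1)) (x : Amb n) :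
    rot i j x = x i • EuclideanSpace.single j (1 : ℝ) - x j • EuclideanSpace.single i (1 : ℝ) := by
  simp [rot]

lemma rot_skew (i j : Fin (n + 1)) : rot i j ∈ skewAdjoint (Amb n →L[ℝ] Amb n) := by
  rw [skewAdjoint.mem_iff, ContinuousLinearMap.star_eq_adjoint]
  symm
  rw [ContinuousLinearMap.eq_adjoint_iff]
  intro x y
  simp only [neg_apply, rot_apply, inner_neg_left, inner_sub_left,
    inner_sub_right, inner_smul_left, inner_smul_right, EuclideanSpace.inner_single_left,
    EuclideanSpace.inner_single_right]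
  simp
  ring

lemma exp_rot_mem (i j : Fin (n + 1)) (θ : ℝ) :
    NormedSpace.exp (θ • rot i j) ∈ unitary (Amb n →L[ℝ] Amb n) := by
  let +nondep : NormedAlgebra ℚ (Amb n →L[ℝ] Amb n) := .restrictScalars ℚ ℝ _
  apply NormedSpace.exp_mem_unitary_of_mem_skewAdjoint
  have := rot_skew (n := n) i j
  rw [skewAdjoint.mem_iff] at this ⊢
  rw [star_smul, this]; simp

/-- The flow of a skew matrix. -/
noncomputable def flow (i j : Fin (n + 1)) (θ : ℝ) : Amb n ≃ₗᵢ[ℝ] Amb n :=
  Unitary.linearIsometryEquiv ⟨NormedSpace.exp (θ • rot i j), exp_rot_mem i j θ⟩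

lemma flow_apply (i j : Fin (n + 1)) (θ : ℝ) (x : Amb n) :
    flow i j θ x = NormedSpace.exp (θ • rot i j) x := rfl

lemma flow_zero (i j : Fin (n + 1)) (x : Amb n) : flow i j 0 x = x := by
  have h : ((0 : ℝ) • rot i j : Amb n →L[ℝ] Amb n) = 0 := by ext y k; simp
  rw [flow_apply, h, NormedSpace.exp_zero]; rfl

lemma hasDerivAt_flow (i j : Fin (n + 1)) (x : Amb n) (θ : ℝ) :
    HasDerivAt (fun θ => flow i j θ x) (rot i j (flow i j θ x)) θ := by
  have h := hasDerivAt_exp_smul_const' (𝕂 := ℝ) (rot i j) θ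
  have h2 := h.clm_apply (hasDerivAt_const θ x)
  simpa [flow_apply] using h2


lemma continuous_flow (i j : Fin (n + 1)) (x : Amb n) : Continuous (fun θ => flow i j θ x) :=
  continuous_iff_continuousAt.2 fun θ => (hasDerivAt_flow i j x θ).continuousAt

lemma integral_continuous_bound {g : Sph n → ℝ} (hg : Continuous g) :
    Integrable g (area n) :=
  hg.integrable_of_hasCompactSupport (HasCompactSupport.of_compactSpace _)

/-- The derivative along the rotation field. -/
noncomputable def LL (i j : Fin (n + 1)) (U : Amb n → ℝ) (x : Amb n) : ℝ :=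
  fderiv ℝ U x (rot i j x)

lemma sph_ne_zero (x : Sph n) : (x : Amb n) ≠ 0 := by
  intro h
  have := mem_sphere_zero_iff_norm.1 x.2
  rw [h, norm_zero] at this
  exact zero_ne_one this

lemma isOpen_compl0 : IsOpen ({0}ᶜ : Set (Amb n)) := isOpen_compl_singleton

lemma hasDerivAt_comp_flow {U : Amb n → ℝ} (hU : DifferentiableOn ℝ U {0}ᶜ) (i j : Fin (n + 1))
    (x : Sph n) (θ : ℝ) :
    HasDerivAt (fun θ => U (flow i j θ x)) (LL i j U (flow i j θ x)) θ := by
  have hne : (flow i j θ x : Amb n) ∈ ({0}ᶜ : Set (Amb n)) := by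
    simpa using sph_ne_zero x
  have h1 := ((hU _ hne).differentiableAt (isOpen_compl0.mem_nhds hne)).hasFDerivAt
  exact h1.comp_hasDerivAt θ (hasDerivAt_flow i j x θ)

/-- The integral over the sphere of a derivative along a rotation field vanishes. -/
theorem integral_LL_eq_zero {U : Amb n → ℝ} (hU : ContDiffOn ℝ 1 U {0}ᶜ) (i j : Fin (n + 1)) :
    ∫ x : Sph n, LL i j U x ∂(area n) = 0 := by
  have hUd : DifferentiableOn ℝ U {0}ᶜ := hU.differentiableOn (by norm_num)
  have hUc : ContinuousOn U {0}ᶜ := hU.continuousOn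
  have hsub : Continuous (fun x : Sph n => (x : Amb n)) := continuous_subtype_val
  have hfd : ContinuousOn (fun x => fderiv ℝ U x) ({0}ᶜ : Set (Amb n)) :=
    hU.continuousOn_fderiv_of_isOpen isOpen_compl0 (by norm_num)
  have hLc : ContinuousOn (LL i j U) ({0}ᶜ : Set (Amb n)) := by
    unfold LL
    exact hfd.clm_apply (rot i j).continuous.continuousOn
  have hLs : Continuous (fun x : Sph n => LL i j U x) :=
    hLc.comp_continuous hsub (fun x => sph_ne_zero x)
  obtain ⟨C, hC⟩ : ∃ C : ℝ, ∀ x : Sph n, ‖LL i j U x‖ ≤ C := by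
    obtain ⟨C, hC⟩ := (isCompact_univ (X := Sph n)).exists_bound_of_continuousOn
      (f := fun x : Sph n => LL i j U x) hLs.continuousOn
    exact ⟨C, fun x => hC x (mem_univ _)⟩
  have hconst : (fun θ : ℝ => ∫ x : Sph n, U (flow i j θ x) ∂(area n)) =
      fun _ => ∫ x : Sph n, U x ∂(area n) := by
    funext θ
    have := integral_sphMap (flow i j θ) (fun x : Sph n => U x)
      (hUc.comp_continuous hsub (fun x => sph_ne_zero x))
    simpa using this
  have hder := hasDerivAt_integral_of_dominated_loc_of_deriv_le (μ := area n) (𝕜 := ℝ)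
    (F := fun θ (x : Sph n) => U (flow i j θ x))
    (F' := fun θ (x : Sph n) => LL i j U (flow i j θ x)) (x₀ := (0 : ℝ)) (s := Set.univ)
    (bound := fun _ => C) Filter.univ_mem ?_ ?_ ?_ ?_ ?_ ?_
  · have h2 := hder.2
    rw [hconst] at h2
    have h3 := h2.unique (hasDerivAt_const 0 _)
    simpa [flow_zero] using h3
  · refine Filter.Eventually.of_forall fun θ => ?_
    exact (hUc.comp_continuous (hsub.comp (continuous_sphMap (flow i j θ)))
      (fun x => sph_ne_zero _)).aestronglyMeasurable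
  · have : Continuous (fun x : Sph n => U (flow i j 0 x)) :=
      hUc.comp_continuous (hsub.comp (continuous_sphMap (flow i j 0)))
        (fun x => sph_ne_zero (sphMap (flow i j 0) x))
    exact integral_continuous_bound this
  · exact (hLc.comp_continuous (hsub.comp (continuous_sphMap (flow i j 0)))
      (fun x => sph_ne_zero _)).aestronglyMeasurable
  · refine Filter.Eventually.of_forall fun x θ _ => ?_
    exact hC (sphMap (flow i j θ) x)
  · exact integrable_const _
  · refine Filter.Eventually.of_forall fun x θ _ => ?_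
    exact hasDerivAt_comp_flow hUd i j x θ

end Pool.Agent.HeatSphere
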